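import Pool.Agent.Lib.MP_6ff8d9_an_h11.Rows

open Metric Filter Topology

namespace Pool.Agent.Lib.MP_6ff8d9_an.H11

open Pool.Agent.Lib.MP_6ff8d9_an

theorem concl : CONCL := by
  intro n g k hg hk hb hne hE
  obtain ⟨hgd, hgp, hg0⟩ := hg
  have h0 : (0 : Cn n) ∈ ball (0 : Cn n) 1 := mem_ball_self one_pos
  set k0 : ℝ := (k 0).re with hk0
  have hk00 : 0 ≤ k0 := (hb 0 h0).1
  have hk01 : k0 ≤ 1 := by
    have := (hb 0 h0).2
    rw [hg0] at this
    simpa using this
  obtain ⟨_, hE2⟩ := hE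
  -- the real-normalised perturbation
  let m : Cn n → ℂ := fun z => k z - (k 0) - (k0 : ℂ) * (g z - 1)
  have hm0 : m 0 = 0 := by simp [m, hg0]
  have hmd : DifferentiableOn ℂ m (ball 0 1) :=
    ((hk.sub (differentiableOn_const _)).sub ((hgd.sub (differentiableOn_const _)).const_mul _))
  have hmre : ∀ z, (m z).re = (k z).re - k0 * (g z).re := by
    intro z
    simp only [m, Complex.sub_re, Complex.mul_re, Complex.ofReal_re, Complex.ofReal_im,
      Complex.one_re, Complex.sub_im, Complex.one_im]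
    rw [← hk0]
    ring
  have key : ∀ s : ℝ, (s = 1/2 ∨ s = -1/2) → (fun z => g z + s * m z) ∈ NB n := by
    intro s hs
    refine ⟨hgd.add (hmd.const_mul _), ?_, by simp [hm0, hg0]⟩
    intro z hz
    have h1 := hgp z hz
    have h2 := hb z hz
    have h3 : (g z + (s : ℂ) * m z).re = (g z).re + s * ((k z).re - k0 * (g z).re) := by
      simp [hmre]
    change 0 < (g z + (s : ℂ) * m z).re
    rw [h3]
    have h4 : 0 ≤ k0 * (g z).re := by positivity
    have h5 : k0 * (g z).re ≤ 1 * (g z).re := mul_le_mul_of_nonneg_right hk01 h1.le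
    rcases hs with rfl | rfl
    · nlinarith [h2.1, h2.2]
    · nlinarith [h2.1, h2.2]
  have h1 := hE2 _ (key (1/2) (Or.inl rfl)) _ (key (-1/2) (Or.inr rfl)) (1/2) (by norm_num)
    (by norm_num) (by
      intro z _
      push_cast
      ring)
  obtain ⟨z, hz, hzne⟩ := hne k0
  have h2 := h1 z hz
  have h3 : m z = 0 := by
    have : ((1/2 : ℝ) : ℂ) * m z = ((-1/2 : ℝ) : ℂ) * m z := add_left_cancel h2
    push_cast at this
    linear_combination this
  apply hzne
  have h4 := hmre z
  rw [h3] at h4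
  simp at h4
  linarith

end Pool.Agent.Lib.MP_6ff8d9_an.H11
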