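import Pool.Agent.Lib.MP_6ff8d9_an_h69.RowsI
import Pool.Agent.Lib.MP_6ff8d9_an_h69.Krel

/-!
# MP_6ff8d9 IRREDUCIBLE, row IRRPRIME: irreducible functions are prime
-/

open Metric Filter Topology Set
open scoped ComplexConjugate

namespace Pool.Agent.Lib.MP_6ff8d9_an.P69

open Pool.Agent.Lib.MP_6ff8d9_an Pool.Agent.Lib.MP_6ff8d9_an.H11

variable {n : ℕ}

/-- maximum principle at a point of the ball -/
theorem const_of_norm_one {f : Cn n → ℂ} (hf : DifferentiableOn ℂ f (ball 0 1))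
    (hb : ∀ z ∈ ball (0 : Cn n) 1, ‖f z‖ ≤ 1) {c : Cn n} (hc : c ∈ ball (0 : Cn n) 1)
    (h1 : 1 ≤ ‖f c‖) : ∀ z ∈ ball (0 : Cn n) 1, f z = f c := by
  intro z hz
  have h2 : IsMaxOn (norm ∘ f) (ball (0 : Cn n) 1) c := fun y hy => (hb y hy).trans h1
  exact Complex.eqOn_of_isPreconnected_of_isMaxOn_norm (convex_ball (0 : Cn n) 1).isPreconnected
    isOpen_ball hf hc h2 hz

theorem mobius_ne {a w : ℂ} (ha : ‖a‖ < 1) (hw : ‖w‖ ≤ 1) : 1 - conj a * w ≠ 0 := by
  intro h
  have h1 : conj a * w = 1 := (sub_eq_zero.1 h).symm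
  have h2 := congrArg norm h1
  rw [norm_mul, RCLike.norm_conj, norm_one] at h2
  nlinarith [norm_nonneg a, norm_nonneg w]

theorem mobius_le {a w : ℂ} (ha : ‖a‖ < 1) (hw : ‖w‖ ≤ 1) :
    ‖(w - a) / (1 - conj a * w)‖ ≤ 1 := by
  rw [norm_div, div_le_one (norm_pos_iff.2 (mobius_ne ha hw))]
  have h1 : ‖w - a‖ ^ 2 ≤ ‖1 - conj a * w‖ ^ 2 := by
    have e1 : ‖1 - conj a * w‖ ^ 2 - ‖w - a‖ ^ 2 = (1 - ‖a‖ ^ 2) * (1 - ‖w‖ ^ 2) := by
      simp only [← Complex.normSq_eq_norm_sq, Complex.normSq_apply, Complex.sub_re, Complex.sub_im,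
        Complex.mul_re, Complex.mul_im, Complex.conj_re, Complex.conj_im, Complex.one_re,
        Complex.one_im]
      ring
    have h2 : 0 ≤ (1 - ‖a‖ ^ 2) * (1 - ‖w‖ ^ 2) := by
      have h3 : ‖a‖ ^ 2 ≤ 1 := pow_le_one₀ (norm_nonneg _) ha.le
      have h4 : ‖w‖ ^ 2 ≤ 1 := pow_le_one₀ (norm_nonneg _) hw
      exact mul_nonneg (by linarith) (by linarith)
    linarith
  exact le_of_sq_le_sq h1 (norm_nonneg _)

theorem irrprime (hL : LOCF) (hF2 : FACT2) (hC : CLAIM1) (hSu : IRRSURJ) (hK : KOF) :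
    IRRPRIME := by
  intro n F hF hF0 hne hI k hk hD
  have hsurj := hSu n F hF hF0 hne hI
  have h0B : (0 : Cn n) ∈ ball (0 : Cn n) 1 := mem_ball_self one_pos
  obtain ⟨e, hOe⟩ : ∃ e, (Oe F e).Nonempty := by
    by_contra hcon
    push Not at hcon
    have hz : EqOn (fderiv ℂ F) 0 (ball (0 : Cn n) 1) := by
      intro z hz
      refine ContinuousLinearMap.ext fun e => ?_
      by_contra h
      have h1 : z ∈ Oe F e := ⟨hz, h⟩
      rw [hcon e] at h1
      exact h1
    obtain ⟨z, hzb, hzF⟩ := hne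
    have h1 : F z = F 0 := isOpen_ball.is_const_of_fderiv_eq_zero
      (convex_ball (0 : Cn n) 1).isPreconnected hF.an hz hzb h0B
    exact hzF (h1.trans hF0)
  have hR := krel hL n F k e hF.an hk hD
  have hE : ∀ z1 ∈ Oe F e, ∀ z2 ∈ Oe F e, F z1 = F z2 → Ek F k z1 z2 := by
    intro z1 h1 z2 h2 h12
    by_contra hnE
    obtain ⟨w, H, hw, hH, hb, hDw, -, hw1, hH1, hsep⟩ := hF2 n F (fun _ => 0) e _ hF hR
      (differentiableOn_const _) (by intro z _ v v'; simp) (by intro z _; simp)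
      (fun _ _ _ _ _ => rfl) z1 h1 rfl
    have hw2 : w z2 ≠ 0 := hsep z2 h2 h12.symm hnE
    have hwb : ∀ z ∈ ball (0 : Cn n) 1, ‖w z‖ ≤ 1 := fun z hz => (hb z hz).1
    have hHb : ∀ z ∈ ball (0 : Cn n) 1, ‖H z‖ ≤ 1 := fun z hz => (hb z hz).2.1
    have hwnc : ¬ ∀ z ∈ ball (0 : Cn n) 1, w z = w 0 := by
      intro h
      exact hw2 (by rw [h z2 h2.1, ← h z1 h1.1, hw1])
    have hm2 : mob (F z1) (F z2) = 0 := by
      unfold mob
      rw [← h12, sub_self, zero_div, mul_zero]
    have hHnc : ¬ ∀ z ∈ ball (0 : Cn n) 1, H z = H 0 := by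
      intro h
      have h3 := (hb z2 h2.1).2.2
      rw [hm2] at h3
      rcases mul_eq_zero.1 h3.symm with h5 | h5
      · exact hw2 h5
      · apply hH1
        rw [h z1 h1.1, ← h z2 h2.1, h5]
    set a := w 0 with ha
    have ha1 : ‖a‖ < 1 := by
      by_contra hcon
      push Not at hcon
      exact hwnc (const_of_norm_one hw hwb h0B hcon)
    -- the Moebius transform of `w` which vanishes at the origin
    have hle : ‖a‖ ≤ ‖F z1‖ := by
      have hgd : ∀ z ∈ ball (0 : Cn n) 1, DifferentiableAt ℂ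
          (fun t : ℂ => (t - a) / (1 - conj a * t)) (w z) := by
        intro z hz
        exact (differentiableAt_id.sub_const a).div
          ((differentiableAt_const _).sub (differentiableAt_id.const_mul _))
          (mobius_ne ha1 (hwb z hz))
      have hwd : ∀ z ∈ ball (0 : Cn n) 1, DifferentiableAt ℂ w z := fun z hz =>
        hw.differentiableAt (isOpen_ball.mem_nhds hz)
      have h3 := hC n F (fun z => (w z - a) / (1 - conj a * w z)) hF hF0 hne hI
        (fun z hz => ((hgd z hz).comp z (hwd z hz)).differentiableWithinAt)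
        (by
          intro z hz v v'
          have h4 : HasFDerivAt (fun z => (w z - a) / (1 - conj a * w z))
              ((fderiv ℂ (fun t : ℂ => (t - a) / (1 - conj a * t)) (w z)).comp (fderiv ℂ w z)) z :=
            (hgd z hz).hasFDerivAt.comp z (hwd z hz).hasFDerivAt
          have h5 : ∀ x : ℂ, fderiv ℂ (fun t : ℂ => (t - a) / (1 - conj a * t)) (w z) x =
              x * fderiv ℂ (fun t : ℂ => (t - a) / (1 - conj a * t)) (w z) 1 := by
            intro x
            conv_lhs => rw [← mul_one x, ← smul_eq_mul, map_smul, smul_eq_mul]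
          rw [h4.fderiv, ContinuousLinearMap.comp_apply, ContinuousLinearMap.comp_apply,
            h5 (fderiv ℂ w z v), h5 (fderiv ℂ w z v')]
          linear_combination (fderiv ℂ (fun t : ℂ => (t - a) / (1 - conj a * t)) (w z) 1) *
            hDw z hz v v')
        (fun z hz => mobius_le ha1 (hwb z hz)) (by simp [ha]) z1 h1.1
      simpa [hw1] using h3
    have hm0 : ‖mob (F z1) (F 0)‖ = ‖F z1‖ := by
      unfold mob
      rw [hF0, zero_sub, mul_zero, sub_zero, div_one, norm_mul, norm_neg, norm_div]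
      have h3 : ‖(1 : ℂ) - conj (F z1)‖ = ‖1 - F z1‖ := by
        rw [← RCLike.norm_conj (1 - F z1), map_sub, map_one]
      have h4 : ‖1 - F z1‖ ≠ 0 := by
        rw [norm_ne_zero_iff]
        intro h5
        have h6 := hF.lt z1 h1.1
        rw [← sub_eq_zero.1 h5] at h6
        simp at h6
      rw [h3, div_self h4, one_mul]
    have hprod : ‖F z1‖ = ‖a‖ * ‖H 0‖ := by
      rw [← hm0, (hb 0 h0B).2.2, norm_mul]
    by_cases ha0 : a = 0
    · have hFz1 : F z1 = 0 := by
        rw [ha0, norm_zero, zero_mul] at hprod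
        exact norm_eq_zero.1 hprod
      rcases hI w H hw hH (by
        intro z hz
        refine ⟨hwb z hz, hHb z hz, ?_⟩
        have h3 := (hb z hz).2.2
        rw [hFz1] at h3
        unfold mob at h3
        simpa using h3) with h | h
      · exact hwnc h
      · exact hHnc h
    · have hap : 0 < ‖a‖ := norm_pos_iff.2 ha0
      have hH0 : 1 ≤ ‖H 0‖ := by
        by_contra hcon
        push Not at hcon
        nlinarith
      exact hHnc (const_of_norm_one hH hHb h0B hH0)
  exact hK n F k e hF hk hsurj hOe fun z hz z' hz' hzz =>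
    (hE z hz z' hz' hzz).2.self_of_nhds hzz

end Pool.Agent.Lib.MP_6ff8d9_an.P69
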