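import Pool.Agent.Lib.MP_6ff8d9_an_h11.Rows

open Metric Filter Topology

namespace Pool.Agent.Lib.MP_6ff8d9_an.H11

open Pool.Agent.Lib.MP_6ff8d9_an

variable {n : ℕ}

/-- the part of the ball over the closed disc -/
def Ov (f : Cn n → ℂ) (a : ℂ) (ρ : ℝ) : Set (Cn n) := {z | ‖z‖ < 1 ∧ f z ∈ closedBall a ρ}

theorem joinedIn_line {X : Type*} [TopologicalSpace X] {F : Set X} {x y : X} (g : ℝ → X)
    (hg : ContinuousOn g (Set.Icc 0 1)) (h0 : g 0 = x) (h1 : g 1 = y)
    (hF : ∀ t ∈ Set.Icc (0 : ℝ) 1, g t ∈ F) : JoinedIn F x y :=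
  JoinedIn.ofLine hg h0 h1 (by rintro _ ⟨t, ht, rfl⟩; exact hF t ht)

/-- a continuous image of a joined pair -/
theorem joinedIn_image {X Y : Type*} [TopologicalSpace X] [TopologicalSpace Y] {S : Set X}
    {F : Set Y} {x x' : X} (g : X → Y) (hg : ContinuousOn g S) (hF : ∀ s ∈ S, g s ∈ F)
    (h : JoinedIn S x x') : JoinedIn F (g x) (g x') := by
  obtain ⟨γ, hγ⟩ := h
  have hmem : ∀ t, γ.extend t ∈ S := by
    intro t
    obtain ⟨s, hs⟩ : ∃ s, γ s = γ.extend t := by
      have := Set.mem_range_self (f := γ.extend) t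
      rw [Path.extend_range] at this
      exact this
    rw [← hs]
    exact hγ s
  refine joinedIn_line (fun t => g (γ.extend t)) ?_ (by simp) (by simp) (fun t _ => hF _ (hmem t))
  exact (hg.comp_continuous γ.continuous_extend hmem).continuousOn

theorem leaf_key {f : Cn n → ℂ} {a : ℂ} {ρ : ℝ} {T : Cn n → ℂ → Cn n} (hT : IsTr f a ρ T)
    {z z' : Cn n} (h : JoinedIn (Ov f a ρ) z z') (hff : f z = f z') : Leaf f z z' := by
  have hz := h.source_mem
  have hz' := h.target_mem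
  have h1 := joinedIn_image (F := {w | ‖w‖ < 1 ∧ f w = f z}) (fun y => T y (f z))
    (hT.cz _ hz.2) (fun s hs => hT.mem s _ hs.1 hs.2 hz.2) h
  have e1 : T z (f z) = z := hT.self z hz.1 hz.2
  have e2 : T z' (f z) = z' := by rw [hff]; exact hT.self z' hz'.1 hz'.2
  rw [e1, e2] at h1
  exact h1

theorem seg_mem {a c c' : ℂ} {ρ : ℝ} (hc : c ∈ closedBall a ρ) (hc' : c' ∈ closedBall a ρ) {t : ℝ}
    (ht : t ∈ Set.Icc (0 : ℝ) 1) : c + (t : ℂ) * (c' - c) ∈ closedBall a ρ := by
  have h := (convex_closedBall a ρ).add_smul_sub_mem hc hc' ht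
  simpa [Complex.real_smul] using h

theorem join_T {f : Cn n → ℂ} {a : ℂ} {ρ : ℝ} {T : Cn n → ℂ → Cn n} (hT : IsTr f a ρ T)
    {z : Cn n} {c c' : ℂ} (hz : ‖z‖ < 1) (hfz : f z ∈ closedBall a ρ) (hc : c ∈ closedBall a ρ)
    (hc' : c' ∈ closedBall a ρ) : JoinedIn (Ov f a ρ) (T z c) (T z c') := by
  refine joinedIn_image (fun c => T z c) (hT.cc z hz hfz) (S := closedBall a ρ) ?_ ?_
  · intro s hs
    have := hT.mem z s hz hfz hs
    exact ⟨this.1, by rw [this.2]; exact hs⟩
  · refine joinedIn_line (fun t : ℝ => c + (t : ℂ) * (c' - c)) (by fun_prop) (by simp) (by simp) ?_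
    intro t ht
    exact seg_mem hc hc' ht

theorem leaft : LEAFT := by
  intro n f a ρ T hf hT
  refine ⟨?_, ?_, ?_⟩
  · intro z z' c hz hfz hc hL
    have hfz' : f z' = f z := hL.target_mem.2
    have h1 := joinedIn_image (F := {w | ‖w‖ < 1 ∧ f w = c}) (fun y => T y c)
      ((hT.cz c hc).mono (show {w | ‖w‖ < 1 ∧ f w = f z} ⊆ _ by
        rintro w ⟨h1, h2⟩
        exact ⟨h1, by rw [h2]; exact hfz⟩)) (fun s hs => hT.mem s c hs.1 (by rw [hs.2]; exact hfz) hc) hL
    unfold Leaf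
    rw [(hT.mem z c hz hfz hc).2]
    exact h1
  · intro z c c' hz hfz hc hc'
    have hm := hT.mem z c hz hfz hc
    have hm' := hT.mem z c' hz hfz hc'
    have hfc : f (T z c) ∈ closedBall a ρ := by rw [hm.2]; exact hc
    have h1 := join_T hT hz hfz hc' hc
    have h2 := join_T hT hm.1 hfc hc hc'
    have h3 : T (T z c) c = T z c := by
      have := hT.self (T z c) hm.1 hfc
      rwa [hm.2] at this
    rw [h3] at h2
    refine leaf_key hT (h1.trans h2) ?_
    rw [hm'.2, (hT.mem (T z c) c' hm.1 hfc hc').2]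
  · intro z0 hz0 hfz0
    have hcb := ball_subset_closedBall hfz0
    have hcont : ContinuousAt f z0 :=
      hf.continuousAt (isOpen_ball.mem_nhds (by simpa using hz0))
    have h1 : ∀ᶠ z in 𝓝 z0, ‖z‖ < 1 ∧ f z ∈ ball a ρ := by
      refine ((continuous_norm.continuousAt.eventually_lt continuousAt_const hz0)).and ?_
      exact hcont.eventually (isOpen_ball.mem_nhds hfz0)
    obtain ⟨ε, hε, hball⟩ := Metric.eventually_nhds_iff_ball.1 h1
    filter_upwards [ball_mem_nhds z0 hε] with z hz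
    have hzz := hball z hz
    have hzc := ball_subset_closedBall hzz.2
    have h2 : JoinedIn (Ov f a ρ) z z0 := by
      refine joinedIn_line (fun t : ℝ => z + t • (z0 - z)) (by fun_prop) (by simp) (by simp) ?_
      intro t ht
      have h3 := (convex_ball z0 ε).add_smul_sub_mem hz (mem_ball_self hε) ht
      have h4 := hball _ h3
      exact ⟨h4.1, ball_subset_closedBall h4.2⟩
    have h3 := join_T hT hz0 hcb hcb hzc
    rw [hT.self z0 hz0 hcb] at h3
    exact leaf_key hT (h2.trans h3) (hT.mem z0 (f z) hz0 hcb hzc).2.symm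

end Pool.Agent.Lib.MP_6ff8d9_an.H11
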