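import Pool.Agent.Lib.MP_6ff8d9_an_h23.N2Rows

open Matrix

namespace Pool.Agent.Lib.MP_6ff8d9_an.N2

theorem det_rows (A : Matrix (Fin 3) (Fin 3) ℂ) (a b c : Fin 3 → ℂ) :
    (Matrix.of ![A *ᵥ a, A *ᵥ b, A *ᵥ c]).det = (Matrix.of ![a, b, c]).det * A.det := by
  have h : (Matrix.of ![A *ᵥ a, A *ᵥ b, A *ᵥ c]) = (Matrix.of ![a, b, c]) * Aᵀ := by
    ext i j
    fin_cases i <;>
      simp [Matrix.mul_apply, Matrix.mulVec, dotProduct, Fin.sum_univ_three, mul_comm]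
  rw [h, Matrix.det_mul, Matrix.det_transpose]

theorem linl_comp (C L : Matrix (Fin 3) (Fin 3) ℂ)
    (h00 : C 0 0 = 0) (h10 : C 1 0 = 1) (h20 : C 2 0 = 0)
    (h01 : C 0 1 = 0) (h11 : C 1 1 = 0) (h21 : C 2 1 = 1)
    (h : ∀ Z : Fin 3 → ℂ, (Matrix.of ![Z, C *ᵥ Z, L *ᵥ Z]).det = 0) :
    L = L 1 0 • C + L 0 0 • (1 : Matrix (Fin 3) (Fin 3) ℂ) := by
  have key : ∀ x y z : ℂ,
      x * ((x + C 1 2 * z) * (L 2 0 * x + L 2 1 * y + L 2 2 * z) -
        (y + C 2 2 * z) * (L 1 0 * x + L 1 1 * y + L 1 2 * z)) -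
      y * (C 0 2 * z * (L 2 0 * x + L 2 1 * y + L 2 2 * z) -
        (y + C 2 2 * z) * (L 0 0 * x + L 0 1 * y + L 0 2 * z)) +
      z * (C 0 2 * z * (L 1 0 * x + L 1 1 * y + L 1 2 * z) -
        (x + C 1 2 * z) * (L 0 0 * x + L 0 1 * y + L 0 2 * z)) = 0 := by
    intro x y z
    have h1 := h ![x, y, z]
    rw [Matrix.det_fin_three] at h1
    simp [Matrix.mulVec, dotProduct, Fin.sum_univ_three, h00, h10, h20, h01, h11, h21] at h1
    linear_combination h1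
  have e20 : L 2 0 = 0 := by linear_combination key 1 0 0
  have a1 := key 1 1 0
  have a2 := key 1 (-1) 0
  have a3 := key 1 2 0
  have e01 : L 0 1 = 0 := by
    linear_combination (1/6) * a3 - (1/2) * a1 - (1/6) * a2 + (1/2) * e20
  have e11 : L 1 1 = L 0 0 := by linear_combination (-1/2) * (a1 + a2) + e20
  have e21 : L 2 1 = L 1 0 := by linear_combination (1/2) * (a1 - a2) - e01
  clear a1 a2 a3
  rw [e20, e01, e11, e21] at key
  have b1 := key 1 0 1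
  have b2 := key 1 0 (-1)
  have b3 := key 1 0 2
  have e22 : L 2 2 = L 1 0 * C 2 2 + L 0 0 := by
    linear_combination (1/2) * (b1 - b2) - (1/6) * (b3 - 3 * b1 - b2)
  have c1 := key 0 1 1
  have c2 := key 0 1 (-1)
  have c3 := key 0 1 2
  have e02 : L 0 2 = L 1 0 * C 0 2 := by
    linear_combination (1/2) * (c1 - c2) - (1/6) * (c3 - 3 * c1 - c2)
  clear b1 b2 b3 c1 c2 c3
  rw [e22, e02] at key
  have d1 := key 1 1 1
  have d2 := key 1 (-1) 1
  have e12 : L 1 2 = L 1 0 * C 1 2 := by linear_combination (-1/2) * (d1 - d2)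
  ext i j
  fin_cases i <;> fin_cases j <;>
    simp [e20, e01, e11, e21, e22, e02, e12, h00, h10, h20, h01, h11, h21]

theorem linl : LINL := by
  intro T L hT h
  obtain ⟨e, he⟩ := hT
  set A : Matrix (Fin 3) (Fin 3) ℂ := (Matrix.of ![e, T *ᵥ e, T *ᵥ (T *ᵥ e)])ᵀ with hA
  have hdet : A.det ≠ 0 := by rw [hA, Matrix.det_transpose]; exact he
  have hu : IsUnit A.det := isUnit_iff_ne_zero.2 hdet
  have hA0 : A *ᵥ ![1, 0, 0] = e := by
    ext i
    fin_cases i <;> simp [hA, Matrix.mulVec, dotProduct, Fin.sum_univ_three]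
  have hA1 : A *ᵥ ![0, 1, 0] = T *ᵥ e := by
    ext i
    fin_cases i <;> simp [hA, Matrix.mulVec, dotProduct, Fin.sum_univ_three]
  have hA2 : A *ᵥ ![0, 0, 1] = T *ᵥ (T *ᵥ e) := by
    ext i
    fin_cases i <;>
      · simp [hA, Matrix.mulVec, dotProduct, Fin.sum_univ_three, Matrix.mul_apply]
        ring
  set C := A⁻¹ * T * A with hC
  set L' := A⁻¹ * L * A with hL
  have hinv : ∀ v, A⁻¹ *ᵥ (A *ᵥ v) = v := by
    intro v
    rw [Matrix.mulVec_mulVec, Matrix.nonsing_inv_mul _ hu, Matrix.one_mulVec]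
  have hinv' : ∀ v, A *ᵥ (A⁻¹ *ᵥ v) = v := by
    intro v
    rw [Matrix.mulVec_mulVec, Matrix.mul_nonsing_inv _ hu, Matrix.one_mulVec]
  have hC0 : C *ᵥ ![1, 0, 0] = ![0, 1, 0] := by
    rw [hC, ← Matrix.mulVec_mulVec, ← Matrix.mulVec_mulVec, hA0, ← hA1, hinv]
  have hC1 : C *ᵥ ![0, 1, 0] = ![0, 0, 1] := by
    rw [hC, ← Matrix.mulVec_mulVec, ← Matrix.mulVec_mulVec, hA1, ← hA2, hinv]
  have hh : ∀ Z : Fin 3 → ℂ, (Matrix.of ![Z, C *ᵥ Z, L' *ᵥ Z]).det = 0 := by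
    intro Z
    have h1 := h (A *ᵥ Z)
    have e1 : T *ᵥ (A *ᵥ Z) = A *ᵥ (C *ᵥ Z) := by
      rw [hC, ← Matrix.mulVec_mulVec, ← Matrix.mulVec_mulVec, hinv']
    have e2 : L *ᵥ (A *ᵥ Z) = A *ᵥ (L' *ᵥ Z) := by
      rw [hL, ← Matrix.mulVec_mulVec, ← Matrix.mulVec_mulVec, hinv']
    rw [e1, e2, det_rows] at h1
    rcases mul_eq_zero.1 h1 with h2 | h2
    · exact h2
    · exact absurd h2 hdet
  have g0 := fun i => congrFun hC0 i
  have g1 := fun i => congrFun hC1 i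
  have key := linl_comp C L' (by simpa [Matrix.mulVec, dotProduct, Fin.sum_univ_three] using g0 0)
    (by simpa [Matrix.mulVec, dotProduct, Fin.sum_univ_three] using g0 1)
    (by simpa [Matrix.mulVec, dotProduct, Fin.sum_univ_three] using g0 2)
    (by simpa [Matrix.mulVec, dotProduct, Fin.sum_univ_three] using g1 0)
    (by simpa [Matrix.mulVec, dotProduct, Fin.sum_univ_three] using g1 1)
    (by simpa [Matrix.mulVec, dotProduct, Fin.sum_univ_three] using g1 2) hh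
  refine ⟨L' 1 0, L' 0 0, ?_⟩
  have e1 : A * L' * A⁻¹ = L := by
    rw [hL, ← Matrix.mul_assoc, ← Matrix.mul_assoc, Matrix.mul_nonsing_inv _ hu, Matrix.one_mul,
      Matrix.mul_assoc, Matrix.mul_nonsing_inv _ hu, Matrix.mul_one]
  have e2 : A * C * A⁻¹ = T := by
    rw [hC, ← Matrix.mul_assoc, ← Matrix.mul_assoc, Matrix.mul_nonsing_inv _ hu, Matrix.one_mul,
      Matrix.mul_assoc, Matrix.mul_nonsing_inv _ hu, Matrix.mul_one]
  rw [← e1]
  conv_lhs => rw [key]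
  rw [Matrix.mul_add, Matrix.add_mul, Matrix.mul_smul, Matrix.smul_mul, e2, Matrix.mul_smul,
    Matrix.mul_one, Matrix.smul_mul, Matrix.mul_nonsing_inv _ hu]

end Pool.Agent.Lib.MP_6ff8d9_an.N2
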