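import Pool.Agent.Lib.MP_6ff8d9_an_h11.Rows
import Pool.Agent.Lib.MP_6ff8d9_an_h77.Poinc

open Metric Filter Topology MvPolynomial
open scoped ComplexConjugate

namespace Pool.Agent.Lib.MP_6ff8d9_an.H11

open Pool.Agent.Lib.MP_6ff8d9_an

variable {n : ℕ}

/-- the linear map `z ↦ (z i)_i` -/
noncomputable def toFun (n : ℕ) : Cn n →L[ℂ] (Fin n → ℂ) :=
  ((EuclideanSpace.equiv (Fin n) ℂ : Cn n ≃L[ℂ] (Fin n → ℂ)) : Cn n →L[ℂ] (Fin n → ℂ))

theorem toFun_apply (z : Cn n) (i : Fin n) : toFun n z i = z i := rfl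

theorem fF_eq (P Q : MvPolynomial (Fin n) ℂ) (z : Cn n) :
    fF P Q z = H22.fr P Q (toFun n z) := rfl

theorem sum_sq (z : Cn n) : ∑ i, ‖z i‖ ^ 2 = ‖z‖ ^ 2 := (EuclideanSpace.norm_sq_eq z).symm

theorem differentiableAt_fF (P Q : MvPolynomial (Fin n) ℂ) (z : Cn n)
    (hz : eval (toFun n z) Q ≠ 0) : DifferentiableAt ℂ (fF P Q) z :=
  ((H22.Poinc.analyticAt_fr P Q (toFun n z) hz).differentiableAt).comp z
    (toFun n).differentiableAt

theorem fderiv_fF (P Q : MvPolynomial (Fin n) ℂ) (z v : Cn n) (hz : eval (toFun n z) Q ≠ 0) :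
    fderiv ℂ (fF P Q) z v = ∑ i, v i * (eval (toFun n z) (H22.Wr P Q i) / eval (toFun n z) Q ^ 2) := by
  have h1 := ((H22.Poinc.analyticAt_fr P Q (toFun n z) hz).differentiableAt).hasFDerivAt.comp z
    (toFun n).hasFDerivAt
  have h2 : fderiv ℂ (fF P Q) z = (fderiv ℂ (H22.fr P Q) (toFun n z)).comp (toFun n) := h1.fderiv
  rw [h2, ContinuousLinearMap.comp_apply, H22.Poinc.apply_eq_sum]
  refine Finset.sum_congr rfl fun i _ => ?_
  rw [H22.Poinc.fderiv_fr P Q _ hz, toFun_apply]

theorem sitr (hS : SARD) : SITR := by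
  intro n P Q hA hD
  refine ⟨{c : ℂ | ∃ z : Fin n → ℂ, eval z Q ≠ 0 ∧ (∀ j, eval z (H22.Wr P Q j) = 0) ∧
    eval z P / eval z Q = c} ∩ ball 0 1, ?_⟩
  have hQ : ∀ z : Cn n, ‖z‖ ≤ 1 → eval (toFun n z) Q ≠ 0 := by
    intro z hz
    refine hA.Qne _ ?_
    have := sum_sq z
    simp only [toFun_apply]
    rw [this]
    exact pow_le_one₀ (norm_nonneg _) hz
  refine ⟨?_, ?_, ?_, ?_, ?_, ?_⟩
  · refine ⟨{z | eval (toFun n z) Q ≠ 0}, ?_, ?_, ?_⟩
    · have : Continuous fun z : Cn n => eval (toFun n z) Q :=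
        (MvPolynomial.continuous_eval Q).comp (toFun n).continuous
      exact isOpen_ne_fun this continuous_const
    · intro z hz
      exact hQ z (by simpa using hz)
    · intro z hz
      exact (differentiableAt_fF P Q z hz).differentiableWithinAt
  · intro z hz
    have h1 := hA.lt (toFun n z) (by
      have := sum_sq z
      simp only [toFun_apply]
      rw [this]
      exact pow_lt_one₀ (norm_nonneg _) hz two_ne_zero)
    have h2 : 0 < ‖eval (toFun n z) Q‖ := norm_pos_iff.2 (hQ z hz.le)
    rw [fF_eq, H22.fr, norm_div, div_lt_one h2]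
    exact h1
  · rw [fF_eq, H22.fr]
    have h0 : toFun n 0 = 0 := map_zero _
    rw [h0, hA.zero, zero_div]
  · exact (hS n P Q).subset Set.inter_subset_left
  · exact Set.inter_subset_right
  · intro z hz hfz hCV
    have hQz := hQ z hz
    set φ := fderiv ℂ (fF P Q) z with hφ
    set a : Cn n := (InnerProductSpace.toDual ℂ (Cn n)).symm φ with ha
    have hinner : ∀ v, inner ℂ a v = φ v := fun v => by
      rw [ha]; exact InnerProductSpace.toDual_symm_apply
    have hnorm : ‖a‖ = ‖φ‖ := by rw [ha]; exact LinearIsometryEquiv.norm_map _ _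
    have hφ0 : φ ≠ 0 := by
      intro h0
      apply hCV
      refine ⟨⟨toFun n z, hQz, ?_, rfl⟩, by simpa using hfz⟩
      intro j
      have h1 := fderiv_fF P Q z (EuclideanSpace.single j 1) hQz
      rw [← hφ, h0] at h1
      simp only [ContinuousLinearMap.zero_apply, EuclideanSpace.single_apply, ite_mul, one_mul,
        zero_mul, Finset.sum_ite_eq', Finset.mem_univ, if_true] at h1
      have h2 : eval (toFun n z) (H22.Wr P Q j) / eval (toFun n z) Q ^ 2 = 0 := by
        first | exact h1.symm | simpa using h1.symm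
      rcases div_eq_zero_iff.1 h2 with h3 | h3
      · exact h3
      · exact absurd h3 (pow_ne_zero 2 hQz)
    have hpos : 0 < ‖φ‖ := norm_pos_iff.2 hφ0
    rcases lt_or_eq_of_le hz with hlt | heq
    · calc ‖φ z‖ ≤ ‖φ‖ * ‖z‖ := φ.le_opNorm z
        _ < ‖φ‖ * 1 := by exact mul_lt_mul_of_pos_left hlt hpos
        _ = ‖φ‖ := mul_one _
    · by_contra hcon
      push Not at hcon
      have h1 : ‖(inner ℂ z a : ℂ)‖ = ‖z‖ * ‖a‖ := by
        refine le_antisymm (norm_inner_le_norm _ _) ?_
        rw [heq, one_mul, hnorm, norm_inner_symm, hinner]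
        exact hcon
      have hz0 : z ≠ 0 := by
        intro h; rw [h] at heq; simp at heq
      have ha0 : a ≠ 0 := by
        intro h; rw [h] at hnorm; simp at hnorm; exact hφ0 (by simpa using hnorm.symm)
      obtain ⟨r, hr0, hr⟩ := (norm_inner_eq_norm_iff hz0 ha0).1 h1
      -- the gradient is a multiple of conj z
      have hW : ∀ j, eval (toFun n z) (H22.Wr P Q j) = (conj r * eval (toFun n z) Q ^ 2) * conj (z j) := by
        intro j
        have h2 := fderiv_fF P Q z (EuclideanSpace.single j 1) hQz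
        rw [← hφ, ← hinner, hr] at h2
        have h3 : (inner ℂ (r • z) (EuclideanSpace.single j (1 : ℂ)) : ℂ) = conj r * conj (z j) := by
          rw [inner_smul_left, EuclideanSpace.inner_single_right]
          simp
        rw [h3] at h2
        have h4 : ∑ i, (EuclideanSpace.single j (1 : ℂ) : Cn n) i *
            (eval (toFun n z) (H22.Wr P Q i) / eval (toFun n z) Q ^ 2) =
            eval (toFun n z) (H22.Wr P Q j) / eval (toFun n z) Q ^ 2 := by
          rw [Finset.sum_eq_single j]
          · simp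
          · intro i _ hi
            simp [hi]
          · simp
        rw [h4] at h2
        field_simp at h2
        linear_combination -h2
      have hs1 : ∑ j, z j * conj (z j) = 1 := by
        have h2 : ∀ j, z j * conj (z j) = ((‖z j‖ ^ 2 : ℝ) : ℂ) := by
          intro j
          rw [Complex.mul_conj, Complex.normSq_eq_norm_sq]
        rw [Finset.sum_congr rfl fun j _ => h2 j, ← Complex.ofReal_sum, sum_sq, heq]
        norm_num
      have hR : eval (toFun n z) (H22.Rr P Q) = conj r * eval (toFun n z) Q ^ 2 := by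
        rw [H22.Rr, map_sum]
        have h2 : ∀ j, eval (toFun n z) (X j * H22.Wr P Q j) =
            (conj r * eval (toFun n z) Q ^ 2) * (z j * conj (z j)) := by
          intro j
          rw [map_mul, eval_X, hW, toFun_apply]
          ring
        rw [Finset.sum_congr rfl fun j _ => h2 j, ← Finset.mul_sum, hs1, mul_one]
      have hR0 : eval (toFun n z) (H22.Rr P Q) ≠ 0 := by
        rw [hR]
        exact mul_ne_zero ((map_ne_zero _).2 hr0) (pow_ne_zero 2 hQz)
      have hrfl : H22.rfl' P Q (toFun n z) = toFun n z := by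
        funext j
        rw [H22.rfl', hW j, ← hR, mul_div_cancel_left₀ _ hR0, Complex.conj_conj, toFun_apply]
      have h5 := (hD.2 (toFun n z) hR0).1
      rw [hrfl, Complex.mul_conj, Complex.mul_conj, Complex.normSq_eq_norm_sq,
        Complex.normSq_eq_norm_sq] at h5
      have h6 : ‖eval (toFun n z) P‖ ^ 2 = ‖eval (toFun n z) Q‖ ^ 2 := by exact_mod_cast h5
      have h7 : ‖eval (toFun n z) P‖ = ‖eval (toFun n z) Q‖ :=
        (sq_eq_sq₀ (norm_nonneg _) (norm_nonneg _)).1 h6
      rw [fF_eq, H22.fr, norm_div, h7, div_self (norm_ne_zero_iff.2 hQz)] at hfz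
      exact lt_irrefl _ hfz

end Pool.Agent.Lib.MP_6ff8d9_an.H11
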