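import Pool.Agent.Lib.MP_6ff8d9_an_h11.Perr
import Pool.Agent.Lib.MP_6ff8d9_an_h11.Concl
import Pool.Agent.Lib.MP_6ff8d9_an_h11.Sitr
import Pool.Agent.Lib.MP_6ff8d9_an_h21r.Crit
import Pool.Agent.Lib.MP_6ff8d9_an_h21r.Ext3
import Pool.Agent.Lib.MP_6ff8d9_an_h42.Vfield
import Pool.Agent.Lib.MP_6ff8d9_an_h69.Flow
import Pool.Agent.Lib.MP_6ff8d9_an_h82.Minp
import Pool.Agent.Lib.MP_6ff8d9_an_h20r.Pois
import Pool.Agent.Lib.MP_6ff8d9_an_h50.Pmod
import Pool.Agent.Lib.MP_6ff8d9_an_h50.Decr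
import Pool.Agent.Lib.MP_6ff8d9_an_h35.Modf
import Pool.Agent.Lib.MP_6ff8d9_an_h99.Split
import Pool.Agent.Lib.MP_6ff8d9_an_h99.NoneRow
import Pool.Agent.Lib.MP_6ff8d9_an_h77.Phre
import Pool.Agent.Lib.MP_6ff8d9_an_h22.Fin1

/-!
# MP_6ff8d9 PERRON: the assembly
-/

open Metric Filter Topology MvPolynomial InnerProductSpace Real

namespace Pool.Agent.Lib.MP_6ff8d9_an.H11

open Pool.Agent.Lib.MP_6ff8d9_an

variable {n : ℕ}

theorem trans : TRANS := trans_of H42.vfield H69.flow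

theorem pmod : PMOD := H50.pmod Rat.H82.minp H20R.pois

theorem modf : MODF := H35.modf pmod leaft

theorem perr_row : PERR := perr trans modf H50.decr

theorem extnd : EXTND := H21R.extnd Rat.H82.minp H20R.pois pha phre

theorem sard : SARD := fun n P Q => Rat.critfin n P Q

theorem sitr_row : SITR := sitr sard

/-- a leafwise harmonic function is locally the real part of a holomorphic function -/
theorem lre_of {f : Cn n → ℂ} {v : Cn n → ℝ} {z0 : Cn n}
    (hf : ∀ᶠ z in 𝓝 z0, DifferentiableAt ℂ f z) {ε : ℝ} (hε : 0 < ε) {U : ℂ → ℝ}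
    (hU : HarmonicOnNhd U (ball (f z0) ε)) (hv : ∀ᶠ z in 𝓝 z0, v z = U (f z)) : LRe v z0 := by
  obtain ⟨K, hK, hKU⟩ := hU.exists_analyticOnNhd_ball_re_eq
  refine ⟨fun z => K (f z), ?_⟩
  have hc : ContinuousAt f z0 := hf.self_of_nhds.continuousAt
  filter_upwards [hf, hv, hc.eventually (ball_mem_nhds _ hε)] with z h1 h2 h3
  refine ⟨((hK _ h3).differentiableAt).comp z h1, ?_⟩
  rw [h2]
  exact (hKU h3).symm

theorem perron : PERRON := by
  intro n f CV hS hnp hE
  obtain ⟨H, u0, C, hH, hu0, hb, hA, hA'⟩ := H99.split_row n f CV hS hnp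
  obtain ⟨v, hv1, hv2⟩ := perr_row n f CV H u0 hS hH hu0 (fun z hz _ => (hb z hz).2.1)
  classical
  let Φ : Cn n → ℂ := fun z => ∏ c ∈ hS.fin.toFinset, (f z - c)
  have hΦ : ∀ z, Φ z ≠ 0 ↔ f z ∉ CV := by
    intro z
    simp only [Φ, Finset.prod_ne_zero_iff, sub_ne_zero]
    constructor
    · intro h hz
      exact h (f z) (hS.fin.mem_toFinset.2 hz) rfl
    · intro h c hc hcz
      exact h (hcz ▸ hS.fin.mem_toFinset.1 hc)
  obtain ⟨Ω, hΩ, hΩs, hfd⟩ := hS.an
  have hfdb : DifferentiableOn ℂ f (ball 0 1) :=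
    hfd.mono (ball_subset_closedBall.trans hΩs)
  have hfa : ∀ z ∈ ball (0 : Cn n) 1, DifferentiableAt ℂ f z := fun z hz =>
    hfdb.differentiableAt (isOpen_ball.mem_nhds hz)
  have hfe : ∀ z ∈ ball (0 : Cn n) 1, ∀ᶠ y in 𝓝 z, DifferentiableAt ℂ f y := fun z hz => by
    filter_upwards [isOpen_ball.mem_nhds hz] with y hy using hfa y hy
  have hΦd : DifferentiableOn ℂ Φ (ball 0 1) := by
    intro z hz
    have h1 : ∀ s : Finset ℂ, DifferentiableAt ℂ (fun z => ∏ c ∈ s, (f z - c)) z := by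
      intro s
      induction s using Finset.induction_on with
      | empty => simp
      | insert a s ha ih =>
        have h2 : (fun z => ∏ c ∈ insert a s, (f z - c)) =
            fun z => (f z - a) * ∏ c ∈ s, (f z - c) := by
          funext z
          rw [Finset.prod_insert ha]
        rw [h2]
        exact ((hfa z hz).sub_const a).mul ih
    exact (h1 _).differentiableWithinAt
  have hg1 : ∀ z ∈ ball (0 : Cn n) 1, 1 - f z ≠ 0 := by
    intro z hz h0
    have h1 := hS.lt z (by simpa using hz)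
    have h2 : f z = 1 := (sub_eq_zero.1 h0).symm
    rw [h2] at h1
    simp at h1
  have hgd : DifferentiableOn ℂ (gf f) (ball 0 1) := by
    intro z hz
    have h1 : DifferentiableAt ℂ (fun w : ℂ => (1 + w) / (1 - w)) (f z) :=
      ((differentiableAt_const _).add differentiableAt_id).div
        ((differentiableAt_const _).sub differentiableAt_id) (hg1 z hz)
    exact (h1.comp z (hfa z hz)).differentiableWithinAt
  have hMc : ContinuousOn (fun z => (gf f z).re) (ball 0 1) :=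
    Complex.continuous_re.comp_continuousOn hgd.continuousOn
  obtain ⟨z1, hz1, hz1f, hz1M, hz1C⟩ := hA 0
  obtain ⟨k, hkd, hk⟩ := extnd n Φ v (fun z => (gf f z).re) hΦd
    ⟨z1, by simpa using hz1, (hΦ z1).2 hz1f⟩ hMc
    (by
      intro z hz hzΦ
      have hz' : ‖z‖ < 1 := by simpa using hz
      have h1 := hv1 z hz' ((hΦ z).1 hzΦ)
      have h2 := hb z hz'
      rw [abs_le]
      constructor <;> linarith)
    (by
      intro z hz hzΦ
      have hz' : ‖z‖ < 1 := by simpa using hz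
      obtain ⟨ε, hε, U, hU, hev⟩ := hv2 z hz' ((hΦ z).1 hzΦ)
      exact lre_of (hfe z hz) hε hU hev)
  have hkc : ContinuousOn (fun z => (k z).re) (ball 0 1) :=
    Complex.continuous_re.comp_continuousOn hkd.continuousOn
  have hkb : ∀ z ∈ ball (0 : Cn n) 1, 0 ≤ (k z).re ∧ (k z).re ≤ (gf f z).re := by
    intro z hz
    have hfr := H21R.dense_ne hΦd ⟨z1, by simpa using hz1, (hΦ z1).2 hz1f⟩ hz
    have key : ∀ y ∈ ball (0 : Cn n) 1, Φ y ≠ 0 → 0 ≤ (k y).re ∧ (k y).re ≤ (gf f y).re := by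
      intro y hy hyΦ
      have hy' : ‖y‖ < 1 := by simpa using hy
      have h1 := hv1 y hy' ((hΦ y).1 hyΦ)
      have h2 := hb y hy'
      rw [← hk y hy hyΦ]
      constructor <;> linarith
    have c1 : ContinuousAt (fun z => (k z).re) z := hkc.continuousAt (isOpen_ball.mem_nhds hz)
    have c2 : ContinuousAt (fun z => (gf f z).re) z := hMc.continuousAt (isOpen_ball.mem_nhds hz)
    constructor
    · by_contra hneg
      push Not at hneg
      have h1 := c1.eventually_lt continuousAt_const hneg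
      obtain ⟨y, hy1, hy2, hy3⟩ := (hfr.and_eventually (h1.and (isOpen_ball.mem_nhds hz))).exists
      exact absurd (key y hy3 hy1).1 (not_le.2 hy2)
    · by_contra hneg
      push Not at hneg
      have h1 := c2.eventually_lt c1 hneg
      obtain ⟨y, hy1, hy2, hy3⟩ := (hfr.and_eventually (h1.and (isOpen_ball.mem_nhds hz))).exists
      exact absurd (key y hy3 hy1).2 (not_le.2 hy2)
  refine concl n (gf f) k hE.1 hkd hkb ?_ hE
  intro t
  by_contra hcon
  push Not at hcon
  rcases lt_or_ge t 1 with ht | ht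
  · -- near `A`: `Re k ≥ Re g - C`
    obtain ⟨z, hz, hzf, hzM, hzC⟩ := hA (C / (1 - t))
    have hzb : z ∈ ball (0 : Cn n) 1 := by simpa using hz
    have h1 := hv1 z hz hzf
    have h2 := hk z hzb ((hΦ z).2 hzf)
    have h3 := hcon z hzb
    have h4 : C < (1 - t) * (gf f z).re := by
      rw [div_lt_iff₀ (by linarith)] at hzM
      linarith
    nlinarith
  · obtain ⟨z, hz, hzf, hzM, hzC⟩ := hA' (max C 0)
    have hzb : z ∈ ball (0 : Cn n) 1 := by simpa using hz
    have h1 := hv1 z hz hzf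
    have h2 := hk z hzb ((hΦ z).2 hzf)
    have h3 := hcon z hzb
    have h4 : C < (gf f z).re := lt_of_le_of_lt (le_max_left _ _) hzM
    have h5 : 0 < (gf f z).re := lt_of_le_of_lt (le_max_right _ _) hzM
    nlinarith

/-- extreme implies connected -/
theorem final3 : FINAL3 := by
  intro n P Q hn hE hQ
  have hA0 := H20R.adm n P Q hn hE.1
  have hA : H22.Adm P Q := hA0.2.1 hQ
  have hD : H22.Dual P Q := H22.final1_row n P Q hn hE
  have hQ' : ∀ z : Cn n, ‖z‖ ≤ 1 → eval (fun i => z i) Q ≠ 0 := hQ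
  obtain ⟨z, hz1, hz2⟩ := H99.none_row n P Q hA hD
  refine ⟨⟨z, hz1, hz2⟩, ?_⟩
  by_contra hcon
  obtain ⟨CV, hS⟩ := sitr_row n P Q hA hD
  have hset : {z : Cn n | ‖z‖ = 1 ∧ fF P Q z = 1} =
      {z : Cn n | ‖z‖ = 1 ∧ eval (fun i => z i) P = eval (fun i => z i) Q} := by
    ext z
    constructor
    · rintro ⟨h1, h2⟩
      refine ⟨h1, ?_⟩
      exact (div_eq_one_iff_eq (hQ z h1.le)).1 h2
    · rintro ⟨h1, h2⟩
      exact ⟨h1, (div_eq_one_iff_eq (hQ z h1.le)).2 h2⟩
  have hne := perron n (fF P Q) CV hS (by rw [hset]; exact hcon)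
  apply hne
  -- `gf (fF P Q)` and `gPQ P Q` agree on the ball
  have heq : ∀ z ∈ ball (0 : Cn n) 1, H22.gPQ P Q z = gf (fF P Q) z := by
    intro z hz
    have hz' : ‖z‖ < 1 := by simpa using hz
    have hq := hQ z hz'.le
    have h1 : fF P Q z = eval (fun i => z i) P / eval (fun i => z i) Q := rfl
    rw [H22.gPQ, gf, h1]
    have h2 : eval (fun i => z i) Q - eval (fun i => z i) P ≠ 0 := by
      intro h0
      have h3 := hS.lt z hz'
      rw [h1, sub_eq_zero.1 h0, div_self (by rw [← sub_eq_zero.1 h0]; exact hq)] at h3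
      simp at h3
    field_simp
  obtain ⟨⟨hd, hp, h0⟩, hext⟩ := hE
  refine ⟨⟨hd.congr fun z hz => (heq z hz).symm, fun z hz => by rw [← heq z hz]; exact hp z hz,
    by rw [← heq 0 (mem_ball_self one_pos)]; exact h0⟩, ?_⟩
  intro g1 hg1 g2 hg2 t ht0 ht1 hsum
  exact hext g1 hg1 g2 hg2 t ht0 ht1 (fun z hz => by rw [heq z hz]; exact hsum z hz)

end Pool.Agent.Lib.MP_6ff8d9_an.H11
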