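import Pool.Agent.Lib.MP_6ff8d9_an_h23.Refl

/-!
# MP_6ff8d9 RationalTwo, row NFN: all eigenvectors are null
-/

open Matrix
open scoped ComplexConjugate

namespace Pool.Agent.Lib.MP_6ff8d9_an.N2

noncomputable section

lemma dag_apply (T : Matrix (Fin 3) (Fin 3) ℂ) (i j : Fin 3) :
    dag T i j = (![-1, 1, 1] : Fin 3 → ℂ) i * conj (T j i) * (![-1, 1, 1] : Fin 3 → ℂ) j := by
  rw [dag, J3, Matrix.mul_diagonal, Matrix.diagonal_mul, Matrix.conjTranspose_apply]
  rfl

/-- the family `1 + K(-ig) + g²/2 E`, with a phase in the last row -/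
def hei (g : ℝ) (ω : ℂ) : Matrix (Fin 3) (Fin 3) ℂ :=
  !![1 + (g : ℂ) ^ 2 / 2, -((g : ℂ) ^ 2 / 2), -(Complex.I * g);
    (g : ℂ) ^ 2 / 2, 1 - (g : ℂ) ^ 2 / 2, -(Complex.I * g);
    ω * (Complex.I * g), -(ω * (Complex.I * g)), ω]

lemma hei_JU (g : ℝ) {ω : ℂ} (hω : ω * conj ω = 1) : JU (hei g ω) := by
  have h2 : (starRingEnd ℂ) 2 = 2 := Complex.conj_ofNat 2
  unfold JU
  ext i j
  fin_cases i <;> fin_cases j <;>
    simp [hei, J3, Matrix.mul_apply, Fin.sum_univ_three, Matrix.diagonal_apply, h2] <;>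
    first
    | linear_combination hω
    | linear_combination (g : ℂ) ^ 2 * hω - ω * conj ω * (g : ℂ) ^ 2 * Complex.I_sq
    | linear_combination -((g : ℂ) ^ 2 * hω) + ω * conj ω * (g : ℂ) ^ 2 * Complex.I_sq
    | linear_combination Complex.I * g * hω
    | linear_combination -(Complex.I * g * hω)

theorem nfn_core (T : Matrix (Fin 3) (Fin 3) ℂ) (lam : ℂ) (hT : dag T = T)
    (hu : T *ᵥ ![1, 1, 0] = lam • ![1, 1, 0])
    (hnull : ∀ (v : Fin 3 → ℂ) (t : ℂ), T *ᵥ v = t • v → (herm v v).re = 0) :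
    ∃ (A : Matrix (Fin 3) (Fin 3) ℂ) (μ c : ℝ), JU A ∧ c ≠ 0 ∧
      T * A = A * ((μ : ℂ) • (1 : Matrix (Fin 3) (Fin 3) ℂ) + nmat c) := by
  have hd : ∀ i j, (![-1, 1, 1] : Fin 3 → ℂ) i * conj (T j i) * (![-1, 1, 1] : Fin 3 → ℂ) j = T i j :=
    fun i j => by rw [← dag_apply, hT]
  have d00 : conj (T 0 0) = T 0 0 := by simpa using hd 0 0
  have d11 : conj (T 1 1) = T 1 1 := by simpa using hd 1 1
  have d22 : conj (T 2 2) = T 2 2 := by simpa using hd 2 2
  have d10 : T 1 0 = -conj (T 0 1) := by simpa using (hd 1 0).symm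
  have d20 : T 2 0 = -conj (T 0 2) := by simpa using (hd 2 0).symm
  have d12 : T 1 2 = conj (T 2 1) := by simpa using (hd 1 2).symm
  have u0 : T 0 0 + T 0 1 = lam := by
    simpa [Matrix.mulVec, dotProduct, Fin.sum_univ_three] using congrFun hu 0
  have u1 : T 1 0 + T 1 1 = lam := by
    simpa [Matrix.mulVec, dotProduct, Fin.sum_univ_three] using congrFun hu 1
  have u2 : T 2 0 + T 2 1 = 0 := by
    simpa [Matrix.mulVec, dotProduct, Fin.sum_univ_three] using congrFun hu 2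
  set k := T 0 2 with hk
  have e21 : T 2 1 = conj k := by linear_combination u2 - d20
  have e12 : T 1 2 = k := by rw [d12, e21, Complex.conj_conj]
  have hlam : T 2 2 = lam := by
    by_contra hne
    have hne' : T 2 2 - lam ≠ 0 := sub_ne_zero.2 hne
    have h1 := hnull ![k / (T 2 2 - lam), k / (T 2 2 - lam), 1] (T 2 2) (by
      funext i
      fin_cases i
      · simp [Matrix.mulVec, dotProduct, Fin.sum_univ_three]
        rw [← hk]
        field_simp
        linear_combination k * u0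
      · simp [Matrix.mulVec, dotProduct, Fin.sum_univ_three]
        rw [e12]
        field_simp
        linear_combination k * u1
      · simp [Matrix.mulVec, dotProduct, Fin.sum_univ_three]
        linear_combination (k / (T 2 2 - lam)) * u2)
    simp [herm] at h1
  have hlr : conj lam = lam := by rw [← hlam]; exact d22
  have hk0 : k ≠ 0 := by
    intro h0
    have h1 := hnull ![0, 0, 1] lam (by
      funext i
      fin_cases i
      · simp [Matrix.mulVec, dotProduct, Fin.sum_univ_three, ← hk, h0]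
      · simp [Matrix.mulVec, dotProduct, Fin.sum_univ_three, e12, h0]
      · simp [Matrix.mulVec, dotProduct, Fin.sum_univ_three, hlam])
    simp [herm] at h1
  have h01 : conj (T 0 1) = T 0 1 := by
    have h1 := congrArg conj u0
    rw [map_add, d00, hlr] at h1
    linear_combination h1 - u0
  obtain ⟨a, ha⟩ : ∃ a : ℝ, T 0 1 = -(a : ℂ) := ⟨-(T 0 1).re, by
    rw [Complex.ofReal_neg, neg_neg]
    exact (Complex.conj_eq_iff_re.1 h01).symm⟩
  obtain ⟨μ, hμ⟩ : ∃ μ : ℝ, lam = (μ : ℂ) := ⟨lam.re, (Complex.conj_eq_iff_re.1 hlr).symm⟩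
  have hTe : T = !![(μ : ℂ) + a, -(a : ℂ), k; (a : ℂ), (μ : ℂ) - a, k; -conj k, conj k, (μ : ℂ)] := by
    have f00 : T 0 0 = (μ : ℂ) + a := by rw [← hμ]; linear_combination u0 - ha
    have f10 : T 1 0 = (a : ℂ) := by rw [d10, h01, ha, neg_neg]
    have f11 : T 1 1 = (μ : ℂ) - a := by rw [← hμ]; linear_combination u1 - f10
    ext i j
    fin_cases i <;> fin_cases j
    · simpa using f00
    · simpa using ha
    · simp [hk]
    · simpa using f10
    · simpa using f11
    · simpa using e12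
    · simpa using d20
    · simpa using e21
    · simpa [hμ] using hlam
  have hc : (‖k‖ : ℝ) ≠ 0 := norm_ne_zero_iff.2 hk0
  have hcC : (‖k‖ : ℂ) ≠ 0 := by exact_mod_cast hc
  have hkk : k * conj k = (‖k‖ : ℂ) * ‖k‖ := by
    rw [Complex.mul_conj, Complex.normSq_eq_norm_sq]
    push_cast
    ring
  have hkc0 : conj k ≠ 0 := (map_ne_zero _).2 hk0
  set ω : ℂ := Complex.I * ‖k‖ / k with hω
  have hω1 : ω * conj ω = 1 := by
    rw [hω]
    simp only [map_div₀, map_mul, Complex.conj_I, Complex.conj_ofReal]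
    field_simp
    linear_combination (-1 : ℂ) * hkk - (‖k‖ : ℂ) ^ 2 * Complex.I_sq
  obtain ⟨g, hg⟩ : ∃ g : ℝ, (a : ℂ) = 2 * ‖k‖ * g := ⟨a / (2 * ‖k‖), by
    push_cast
    field_simp⟩
  refine ⟨hei g ω, μ, ‖k‖, hei_JU _ hω1, hc, ?_⟩
  have hkω : k * ω = Complex.I * ‖k‖ := by rw [hω]; field_simp
  have hcω : Complex.I * ‖k‖ * ω = -conj k := by
    rw [hω]
    field_simp
    linear_combination hkk + (‖k‖ : ℂ) ^ 2 * Complex.I_sq
  rw [hTe, hg]
  ext i j
  fin_cases i <;> fin_cases j <;>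
    simp [hei, nmat, Matrix.mul_apply, Fin.sum_univ_three] <;>
    first
    | ring1
    | linear_combination hkω
    | linear_combination hcω
    | linear_combination -hcω
    | linear_combination Complex.I * g * hkω + 2 * ‖k‖ * g * Complex.I_sq
    | linear_combination -(Complex.I * g * hkω) - 2 * ‖k‖ * g * Complex.I_sq

/-- a null vector `(1, w₁, w₂)` is the image of `(1, 1, 0)` -/
lemma move_null {w : Fin 3 → ℂ} (h0 : w 0 = 1) (hw : herm w w = 0) :
    ∃ A, JU A ∧ A *ᵥ ![1, 1, 0] = w := by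
  have h1 : w 1 * conj (w 1) + w 2 * conj (w 2) = 1 := by
    simp only [herm, h0, map_one] at hw
    linear_combination hw
  refine ⟨!![1, 0, 0; 0, w 1, -conj (w 2); 0, w 2, conj (w 1)], ?_, ?_⟩
  · unfold JU
    ext i j
    fin_cases i <;> fin_cases j <;>
      simp [J3, Matrix.mul_apply, Fin.sum_univ_three, Matrix.diagonal_apply] <;>
      first
      | linear_combination h1
      | ring1
  · funext i
    fin_cases i <;> simp [Matrix.mulVec, dotProduct, Fin.sum_univ_three, h0]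

theorem nfn : NFN := by
  intro T hT hC hnull
  -- an eigenvector
  obtain ⟨t, ht⟩ := Module.End.exists_eigenvalue (Matrix.toLin' T)
  obtain ⟨v, hv⟩ := ht.exists_hasEigenvector
  have hTv : T *ᵥ v = t • v := by
    have := hv.apply_eq_smul
    rwa [Matrix.toLin'_apply] at this
  have hv0 : v ≠ 0 := hv.2
  have hn := hnull v t hTv
  have hvv : herm v v = 0 := by
    apply Complex.ext
    · simpa using hn
    · simpa using herm_self_im v
  have hs : -‖v 0‖ ^ 2 + ‖v 1‖ ^ 2 + ‖v 2‖ ^ 2 = 0 := by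
    have := herm_self v
    rw [hvv] at this
    exact_mod_cast this.symm
  have hv00 : v 0 ≠ 0 := by
    intro h
    rw [h] at hs
    have h1 : ‖v 1‖ = 0 := by
      have : ‖v 1‖ ^ 2 = 0 := by
        simp at hs
        nlinarith [sq_nonneg ‖v 1‖, sq_nonneg ‖v 2‖]
      exact pow_eq_zero_iff (two_ne_zero) |>.1 this
    have h2 : ‖v 2‖ = 0 := by
      have : ‖v 2‖ ^ 2 = 0 := by
        simp at hs
        nlinarith [sq_nonneg ‖v 1‖, sq_nonneg ‖v 2‖]
      exact pow_eq_zero_iff (two_ne_zero) |>.1 this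
    apply hv0
    funext i
    fin_cases i
    · exact h
    · exact norm_eq_zero.1 h1
    · exact norm_eq_zero.1 h2
  set w : Fin 3 → ℂ := (v 0)⁻¹ • v with hw
  have hw0 : w 0 = 1 := by
    show (v 0)⁻¹ * v 0 = 1
    exact inv_mul_cancel₀ hv00
  have hww : herm w w = 0 := by
    rw [hw, herm_smul_left, herm_smul_right, hvv]
    ring
  have hTw : T *ᵥ w = t • w := by
    rw [hw, Matrix.mulVec_smul, hTv, smul_comm]
  obtain ⟨B, hB, hBw⟩ := move_null hw0 hww
  have hinv : ∀ x, B⁻¹ *ᵥ (B *ᵥ x) = x := fun x => by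
    rw [mulVec_mulVec, hB.inv_mul, one_mulVec]
  have hinv' : ∀ x, B *ᵥ (B⁻¹ *ᵥ x) = x := fun x => by
    rw [mulVec_mulVec, hB.mul_inv, one_mulVec]
  have hconj : ∀ x, (B⁻¹ * T * B) *ᵥ x = B⁻¹ *ᵥ (T *ᵥ (B *ᵥ x)) := fun x => by
    rw [← mulVec_mulVec, ← mulVec_mulVec]
  obtain ⟨A, μ, c, hA, hc, hTA⟩ := nfn_core (B⁻¹ * T * B) t (hB.dag_conj hT)
    (by rw [hconj, hBw, hTw, Matrix.mulVec_smul, ← hBw, hinv])
    (by
      intro x s hx
      rw [← hB.herm]
      refine hnull _ s ?_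
      have h1 := congrArg (fun y => B *ᵥ y) hx
      beta_reduce at h1
      rw [hconj, hinv', Matrix.mulVec_smul] at h1
      exact h1)
  refine ⟨B * A, μ, c, hB.mul hA, hc, ?_⟩
  rw [mul_assoc, ← hTA]
  calc T * (B * A) = (B * B⁻¹) * (T * B * A) := by rw [hB.mul_inv, one_mul, mul_assoc]
    _ = B * (B⁻¹ * T * B * A) := by noncomm_ring

end

end Pool.Agent.Lib.MP_6ff8d9_an.N2
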