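import Pool.Agent.Lib.MP_6ff8d9_an_h11.Nfn
import Pool.Agent.Lib.MP_6ff8d9_an_h8.SymRows

/-!
# MP_6ff8d9 SymmetricTwo, row NFN2: all eigenvectors are null, no cyclicity needed
-/

open Matrix
open scoped ComplexConjugate

namespace Pool.Agent.Lib.MP_6ff8d9_an.N2

noncomputable section

theorem nfn2 : NFN2 := by
  intro T hT hnull
  -- an eigenvector
  obtain ⟨t, ht⟩ := Module.End.exists_eigenvalue (Matrix.toLin' T)
  obtain ⟨v, hv⟩ := ht.exists_hasEigenvector
  have hTv : T *ᵥ v = t • v := by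
    have := hv.apply_eq_smul
    rwa [Matrix.toLin'_apply] at this
  have hv0 : v ≠ 0 := hv.2
  have hn := hnull v t hTv
  have hvv : herm v v = 0 := by
    apply Complex.ext
    · simpa using hn
    · simpa using herm_self_im v
  have hs : -‖v 0‖ ^ 2 + ‖v 1‖ ^ 2 + ‖v 2‖ ^ 2 = 0 := by
    have := herm_self v
    rw [hvv] at this
    exact_mod_cast this.symm
  have hv00 : v 0 ≠ 0 := by
    intro h
    rw [h] at hs
    have h1 : ‖v 1‖ = 0 := by
      have : ‖v 1‖ ^ 2 = 0 := by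
        simp at hs
        nlinarith [sq_nonneg ‖v 1‖, sq_nonneg ‖v 2‖]
      exact pow_eq_zero_iff (two_ne_zero) |>.1 this
    have h2 : ‖v 2‖ = 0 := by
      have : ‖v 2‖ ^ 2 = 0 := by
        simp at hs
        nlinarith [sq_nonneg ‖v 1‖, sq_nonneg ‖v 2‖]
      exact pow_eq_zero_iff (two_ne_zero) |>.1 this
    apply hv0
    funext i
    fin_cases i
    · exact h
    · exact norm_eq_zero.1 h1
    · exact norm_eq_zero.1 h2
  set w : Fin 3 → ℂ := (v 0)⁻¹ • v with hw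
  have hw0 : w 0 = 1 := by
    show (v 0)⁻¹ * v 0 = 1
    exact inv_mul_cancel₀ hv00
  have hww : herm w w = 0 := by
    rw [hw, herm_smul_left, herm_smul_right, hvv]
    ring
  have hTw : T *ᵥ w = t • w := by
    rw [hw, Matrix.mulVec_smul, hTv, smul_comm]
  obtain ⟨B, hB, hBw⟩ := move_null hw0 hww
  have hinv : ∀ x, B⁻¹ *ᵥ (B *ᵥ x) = x := fun x => by
    rw [mulVec_mulVec, hB.inv_mul, one_mulVec]
  have hinv' : ∀ x, B *ᵥ (B⁻¹ *ᵥ x) = x := fun x => by
    rw [mulVec_mulVec, hB.mul_inv, one_mulVec]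
  have hconj : ∀ x, (B⁻¹ * T * B) *ᵥ x = B⁻¹ *ᵥ (T *ᵥ (B *ᵥ x)) := fun x => by
    rw [← mulVec_mulVec, ← mulVec_mulVec]
  obtain ⟨A, μ, c, hA, hc, hTA⟩ := nfn_core (B⁻¹ * T * B) t (hB.dag_conj hT)
    (by rw [hconj, hBw, hTw, Matrix.mulVec_smul, ← hBw, hinv])
    (by
      intro x s hx
      rw [← hB.herm]
      refine hnull _ s ?_
      have h1 := congrArg (fun y => B *ᵥ y) hx
      beta_reduce at h1
      rw [hconj, hinv', Matrix.mulVec_smul] at h1
      exact h1)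
  refine ⟨B * A, μ, c, hB.mul hA, hc, ?_⟩
  rw [mul_assoc, ← hTA]
  calc T * (B * A) = (B * B⁻¹) * (T * B * A) := by rw [hB.mul_inv, one_mul, mul_assoc]
    _ = B * (B⁻¹ * T * B * A) := by noncomm_ring

end

end Pool.Agent.Lib.MP_6ff8d9_an.N2
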