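import Pool.Agent.Lib.MP_6ff8d9_an_h11.LeafT

open Metric Filter Topology InnerProductSpace Real

namespace Pool.Agent.Lib.MP_6ff8d9_an.H11

open Pool.Agent.Lib.MP_6ff8d9_an

variable {n : ℕ}

/-- transports exist -/
def TRANS : Prop := ∀ (n : ℕ) (f : Cn n → ℂ) (CV : Set ℂ) (a : ℂ) (ρ : ℝ), Sit n f CV → 0 < ρ →
  closedBall a ρ ⊆ ball 0 1 \ CV → ∃ T : Cn n → ℂ → Cn n, IsTr f a ρ T

theorem Sit.cont {f : Cn n → ℂ} {CV : Set ℂ} (h : Sit n f CV) : ContinuousOn f (ball 0 1) := by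
  obtain ⟨Ω, _, hs, hd⟩ := h.an
  exact (hd.continuousOn).mono (ball_subset_closedBall.trans hs)

theorem trans_of (hV : VFIELD) (hF : FLOW) : TRANS := by
  intro n f CV a ρ hS hρ hsub
  obtain ⟨Ξ, N, C, h1, h2, h3, h4, h5, h6⟩ := hV n f CV a ρ hS hρ hsub
  exact hF n f a ρ Ξ N C hρ hS.cont h1 h2 h3 h4 h5 h6

/-- a subharmonic function is continuous along the transport -/
theorem subF_cont {f : Cn n → ℂ} {CV : Set ℂ} {a : ℂ} {ρ : ℝ} {T : Cn n → ℂ → Cn n}
    (hT : IsTr f a ρ T) (hsub : closedBall a ρ ⊆ ball 0 1 \ CV) {u : Cn n → ℝ}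
    (hu : SubF f CV u) {z : Cn n} (hz : ‖z‖ < 1) (hfz : f z ∈ closedBall a ρ) :
    ContinuousOn (fun c => u (T z c)) (ball a ρ) := by
  intro c1 hc1
  have hc1' := ball_subset_closedBall hc1
  have hm := hT.mem z c1 hz hfz hc1'
  obtain ⟨ε, hε, U, hU, hev⟩ := hu.2 (T z c1) hm.1 (by rw [hm.2]; exact (hsub hc1').2)
  have hnb : closedBall a ρ ∈ 𝓝 c1 := mem_of_superset (isOpen_ball.mem_nhds hc1) ball_subset_closedBall
  have hTc : ContinuousAt (fun c => T z c) c1 := (hT.cc z hz hfz).continuousAt hnb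
  have h1 : ∀ᶠ c in 𝓝 c1, u (T z c) = U c := by
    filter_upwards [hTc.eventually hev, hnb] with c hc hcb
    rw [hc, (hT.mem z c hz hfz hcb).2]
  have h2 : ContinuousAt U c1 := by
    refine hU.1.continuousAt ?_
    rw [hm.2]
    exact ball_mem_nhds _ hε
  exact (h2.congr (by filter_upwards [h1] with c hc using hc.symm)).continuousWithinAt

theorem perr (hTR : TRANS) (hM : MODF) (hD : DECR) : PERR := by
  intro n f CV H u0 hS hH hu0 hle
  have hopen : IsOpen (ball (0 : ℂ) 1 \ CV) := isOpen_ball.sdiff hS.fin.isClosed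
  have hR : ∀ c : ℂ, ∃ R : ℝ, 0 < R ∧ (c ∈ ball (0 : ℂ) 1 \ CV → closedBall c R ⊆ ball 0 1 \ CV) := by
    intro c
    by_cases hc : c ∈ ball (0 : ℂ) 1 \ CV
    · obtain ⟨R, hR, h⟩ := nhds_basis_closedBall.mem_iff.1 (hopen.mem_nhds hc)
      exact ⟨R, hR, fun _ => h⟩
    · exact ⟨1, one_pos, fun h => absurd h hc⟩
  choose R hR0 hRs using hR
  obtain ⟨t, hts, htc, htU⟩ := TopologicalSpace.countable_cover_nhdsWithin
    (f := fun c => ball c (R c / 2)) (s := ball (0 : ℂ) 1 \ CV)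
    (fun c _ => mem_nhdsWithin_of_mem_nhds (ball_mem_nhds c (half_pos (hR0 c))))
  have hmemD : ∀ z : Cn n, ‖z‖ < 1 → f z ∉ CV → f z ∈ ball (0 : ℂ) 1 \ CV := fun z hz hf =>
    ⟨by simpa using hS.lt z hz, hf⟩
  rcases t.eq_empty_or_nonempty with ht | ht
  · refine ⟨H, fun z hz hf => ?_, fun z hz hf => ?_⟩
    · exfalso
      have := htU (hmemD z hz hf)
      simp [ht] at this
    · exfalso
      have := htU (hmemD z hz hf)
      simp [ht] at this
  obtain ⟨e, he⟩ := htc.exists_eq_range ht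
  have het : ∀ m, e m ∈ ball (0 : ℂ) 1 \ CV := fun m => hts (by rw [he]; exact Set.mem_range_self m)
  have hTm : ∀ m, ∃ T : Cn n → ℂ → Cn n, IsTr f (e m) (R (e m)) T := fun m =>
    hTR n f CV (e m) (R (e m)) hS (hR0 _) (hRs _ (het m))
  choose T hT using hTm
  let Hs : ℕ → Cn n → ℝ := fun j => Nat.rec H (fun j u =>
    MdF f (e (Nat.unpair j).1) (R (e (Nat.unpair j).1) / 2) (T (Nat.unpair j).1) u) j
  have Hs0 : Hs 0 = H := rfl
  have Hss : ∀ j, Hs (j + 1) = MdF f (e (Nat.unpair j).1) (R (e (Nat.unpair j).1) / 2)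
    (T (Nat.unpair j).1) (Hs j) := fun j => rfl
  have hMm : ∀ m, ∀ u : Cn n → ℝ, SupF f CV u → _ := fun m u hu =>
    hM n f CV (e m) (R (e m) / 2) (R (e m)) (T m) hS (half_pos (hR0 _)) (half_lt_self (hR0 _))
      (hRs _ (het m)) (hT m) u hu
  have hind : ∀ j, SupF f CV (Hs j) ∧ ∀ z, ‖z‖ < 1 → f z ∉ CV → u0 z ≤ Hs j z := by
    intro j
    induction j with
    | zero => exact ⟨hH, hle⟩
    | succ j ih =>
      have h1 := hMm (Nat.unpair j).1 (Hs j) ih.1
      rw [Hss]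
      exact ⟨h1.1, h1.2.2.1 u0 hu0 ih.2⟩
  have hanti : ∀ z, ‖z‖ < 1 → f z ∉ CV → Antitone (fun j => Hs j z) := by
    intro z hz hf
    refine antitone_nat_of_succ_le fun j => ?_
    have h1 := hMm (Nat.unpair j).1 (Hs j) (hind j).1
    rw [Hss]
    exact h1.2.1 z hz hf
  have hbdd : ∀ z, ‖z‖ < 1 → f z ∉ CV → BddBelow (Set.range (fun j => Hs j z)) := by
    intro z hz hf
    exact ⟨u0 z, by rintro _ ⟨j, rfl⟩; exact (hind j).2 z hz hf⟩
  let v : Cn n → ℝ := fun z => ⨅ j, Hs j z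
  have hlim : ∀ z, ‖z‖ < 1 → f z ∉ CV → Tendsto (fun j => Hs j z) atTop (𝓝 (v z)) :=
    fun z hz hf => tendsto_atTop_ciInf (hanti z hz hf) (hbdd z hz hf)
  have hvLC : LC f CV v := by
    intro z z' hz hf hL
    simp only [v]
    congr 1
    funext j
    exact (hind j).1.1 z z' hz hf hL
  refine ⟨v, ?_, ?_⟩
  · intro z hz hf
    refine ⟨le_ciInf fun j => (hind j).2 z hz hf, ?_⟩
    exact ciInf_le (hbdd z hz hf) 0
  · intro z0 hz0 hf0
    have h1 := htU (hmemD z0 hz0 hf0)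
    simp only [Set.mem_iUnion] at h1
    obtain ⟨c, hct, hcz⟩ := h1
    rw [he] at hct
    obtain ⟨m, rfl⟩ := hct
    have hsub := hRs _ (het m)
    have hcz' : f z0 ∈ ball (e m) (R (e m)) := ball_subset_ball (half_le_self (hR0 _).le) hcz
    have hczb := ball_subset_closedBall hcz'
    obtain ⟨-, hL2, hL3⟩ := leaft n f (e m) (R (e m)) (T m) hS.cont (hT m)
    have hin : ∀ c ∈ ball (e m) (R (e m) / 2), ‖T m z0 c‖ < 1 ∧ f (T m z0 c) ∉ CV := by
      intro c hc
      have hc' : c ∈ closedBall (e m) (R (e m)) :=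
        ball_subset_closedBall (ball_subset_ball (half_le_self (hR0 _).le) hc)
      have := (hT m).mem z0 c hz0 hczb hc'
      exact ⟨this.1, by rw [this.2]; exact (hsub hc').2⟩
    have hV : HarmonicOnNhd (fun c => v (T m z0 c)) (ball (e m) (R (e m) / 2)) := by
      refine hD (e m) (R (e m) / 2) (fun i c => Hs (Nat.pair m i + 1) (T m z0 c))
        (fun c => u0 (T m z0 c)) _ ?_ ?_ ?_ ?_ ?_
      · intro i
        have h2 := (hMm m (Hs (Nat.pair m i)) (hind _).1).2.2.2 z0 hz0 hcz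
        have h3 : Hs (Nat.pair m i + 1) = MdF f (e m) (R (e m) / 2) (T m) (Hs (Nat.pair m i)) := by
          rw [Hss, Nat.unpair_pair]
        rw [h3]
        exact h2
      · intro i c hc
        have h2 := hin c hc
        have h3 : Nat.pair m i + 1 ≤ Nat.pair m (i + 1) + 1 := by
          have := Nat.pair_lt_pair_right m (show i < i + 1 by omega)
          omega
        exact hanti _ h2.1 h2.2 h3
      · exact (subF_cont (hT m) hsub hu0 hz0 hczb).mono
          (ball_subset_ball (half_le_self (hR0 _).le))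
      · intro i c hc
        have h2 := hin c hc
        exact (hind (Nat.pair m i + 1)).2 _ h2.1 h2.2
      · intro c hc
        have h2 := hin c hc
        have h3 : Tendsto (fun i => Nat.pair m i + 1) atTop atTop := by
          refine StrictMono.tendsto_atTop ?_
          intro i j hij
          have := Nat.pair_lt_pair_right m hij
          change Nat.pair m i + 1 < Nat.pair m j + 1
          omega
        exact (hlim _ h2.1 h2.2).comp h3
    obtain ⟨ε, hε, hεs⟩ := Metric.isOpen_iff.1 isOpen_ball (f z0) hcz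
    refine ⟨ε, hε, fun c => v (T m z0 c), hV.mono hεs, ?_⟩
    have hcont : ContinuousAt f z0 :=
      hS.cont.continuousAt (isOpen_ball.mem_nhds (by simpa using hz0))
    have hnb : ∀ᶠ z in 𝓝 z0, ‖z‖ < 1 ∧ f z ∈ ball (0 : ℂ) 1 \ CV := by
      refine ((continuous_norm.continuousAt.eventually_lt continuousAt_const hz0)).and ?_
      exact hcont.eventually (hopen.mem_nhds (hmemD z0 hz0 hf0))
    filter_upwards [hL3 z0 hz0 hcz', hnb] with z hz hz2
    exact hvLC z _ hz2.1 hz2.2.2 hz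

end Pool.Agent.Lib.MP_6ff8d9_an.H11
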