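import Pool.Agent.Lib.MP_6ff8d9_an_h69.Rows
import Pool.Agent.Lib.MP_6ff8d9_an_h35.Modf

/-!
# MP_6ff8d9 PRIME, row PERRE: the balayage for an open and closed relation
-/

open Metric Filter Topology InnerProductSpace Real

namespace Pool.Agent.Lib.MP_6ff8d9_an.P69

open Pool.Agent.Lib.MP_6ff8d9_an Pool.Agent.Lib.MP_6ff8d9_an.H11 Pool.Agent.Lib.MP_6ff8d9_an.H35

variable {n : ℕ}

open Classical in
/-- the Poisson modification on one sheet -/
noncomputable def MdE (F : Cn n → ℂ) (O : Set (Cn n)) (E : Cn n → Cn n → Prop) (a : ℂ) (ρ : ℝ)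
    (σ : ℂ → Cn n) (u : Cn n → ℝ) (z : Cn n) : ℝ :=
  if z ∈ O ∧ F z ∈ ball a ρ ∧ E z (σ (F z)) then PI (fun ζ => u (σ ζ)) a ρ (F z) else u z

/-- a piece: a section over a disc -/
structure Pc (F : Cn n → ℂ) (O : Set (Cn n)) (a : ℂ) (ρ ρ' : ℝ) (σ : ℂ → Cn n) : Prop where
  pos : 0 < ρ
  lt : ρ < ρ'
  mem : ∀ w ∈ ball a ρ', σ w ∈ O ∧ F (σ w) = w
  cont : ContinuousOn σ (ball a ρ')

section piece

variable {F : Cn n → ℂ} {O : Set (Cn n)} {E : Cn n → Cn n → Prop} {a : ℂ} {ρ ρ' : ℝ}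
  {σ : ℂ → Cn n}

theorem Rel.contAt (hR : Rel n F O E) {z : Cn n} (hz : z ∈ O) : ContinuousAt F z :=
  (hR.an.differentiableAt (hR.op.mem_nhds hz)).continuousAt

theorem loc_sig (hp : Pc F O a ρ ρ' σ) {u : Cn n → ℝ} (P : (ℂ → ℝ) → Set ℂ → Prop)
    (hu : ∀ z0 ∈ O, ∃ ε : ℝ, 0 < ε ∧ ∃ U : ℂ → ℝ,
      P U (ball (F z0) ε) ∧ ∀ᶠ z in 𝓝 z0, u z = U (F z)) {c : ℂ} (hc : c ∈ ball a ρ') :
    ∃ ε : ℝ, 0 < ε ∧ ∃ V : ℂ → ℝ, P V (ball c ε) ∧ (fun c => u (σ c)) =ᶠ[𝓝 c] V := by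
  obtain ⟨hm, hf⟩ := hp.mem c hc
  obtain ⟨ε, hε, U, hU, huU⟩ := hu (σ c) hm
  rw [hf] at hU
  refine ⟨ε, hε, U, hU, ?_⟩
  have hcont : ContinuousAt σ c := hp.cont.continuousAt (isOpen_ball.mem_nhds hc)
  filter_upwards [hcont.eventually huU, isOpen_ball.mem_nhds hc] with c' h2 h3
  rw [h2, (hp.mem c' h3).2]

/-- near an equivalent point everything is equivalent to the section -/
theorem ev_E (hR : Rel n F O E) (hp : Pc F O a ρ ρ' σ) {z1 : Cn n} (hz : z1 ∈ O)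
    (hF : F z1 ∈ ball a ρ') (hE : E z1 (σ (F z1))) :
    ∀ᶠ z in 𝓝 z1, z ∈ O ∧ F z ∈ ball a ρ' ∧ E z (σ (F z)) := by
  have hc := hR.contAt hz
  have hs : ContinuousAt (fun z => σ (F z)) z1 :=
    ContinuousAt.comp (g := σ) (hp.cont.continuousAt (isOpen_ball.mem_nhds hF)) hc
  have h1 := (continuousAt_id.prodMk hs).eventually (hR.opn z1 hz _ (hp.mem _ hF).1 hE)
  filter_upwards [h1, hR.op.mem_nhds hz, hc.eventually (isOpen_ball.mem_nhds hF)] with z h2 h3 h4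
  exact ⟨h3, h4, h2 (hp.mem _ h4).2.symm⟩

theorem ev_nE (hR : Rel n F O E) (hp : Pc F O a ρ ρ' σ) {z1 : Cn n} (hz : z1 ∈ O)
    (hF : F z1 ∈ ball a ρ') (hE : ¬ E z1 (σ (F z1))) :
    ∀ᶠ z in 𝓝 z1, z ∈ O ∧ F z ∈ ball a ρ' ∧ ¬ E z (σ (F z)) := by
  have hc := hR.contAt hz
  have hs : ContinuousAt (fun z => σ (F z)) z1 :=
    ContinuousAt.comp (g := σ) (hp.cont.continuousAt (isOpen_ball.mem_nhds hF)) hc
  have h1 := (continuousAt_id.prodMk hs).eventually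
    (hR.cls z1 hz _ (hp.mem _ hF).1 (hp.mem _ hF).2.symm hE)
  filter_upwards [h1, hR.op.mem_nhds hz, hc.eventually (isOpen_ball.mem_nhds hF)] with z h2 h3 h4
  exact ⟨h3, h4, h2 (hp.mem _ h4).2.symm⟩

/-- the properties of the modification -/
theorem mde (hP : PMOD) (hR : Rel n F O E) (hp : Pc F O a ρ ρ' σ) {u : Cn n → ℝ}
    (hu : SupE F O E u) :
    SupE F O E (MdE F O E a ρ σ u) ∧ (∀ z ∈ O, MdE F O E a ρ σ u z ≤ u z) ∧
    (∀ u0 : Cn n → ℝ, SubE F O E u0 → (∀ z ∈ O, u0 z ≤ u z) →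
      ∀ z ∈ O, u0 z ≤ MdE F O E a ρ σ u z) ∧
    HarmonicOnNhd (fun c => MdE F O E a ρ σ u (σ c)) (ball a ρ) := by
  have hbb : ball a ρ ⊆ ball a ρ' := ball_subset_ball hp.lt.le
  have hU : SupM (fun c => u (σ c)) (ball a ρ') :=
    supM_loc fun c hc => loc_sig hp SupM hu.2 hc
  obtain ⟨m1, m2, m3, m4⟩ := hP a ρ ρ' _ hp.pos hp.lt hU
  have hval : ∀ z ∈ O, F z ∈ ball a ρ' → E z (σ (F z)) →
      MdE F O E a ρ σ u z = Md (fun c => u (σ c)) a ρ (F z) ∧ u z = u (σ (F z)) := by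
    intro z hz hF hE
    have h1 := hu.1 z hz _ (hp.mem _ hF).1 hE
    refine ⟨?_, h1⟩
    unfold MdE Md
    by_cases h : F z ∈ ball a ρ
    · rw [if_pos ⟨hz, h, hE⟩, if_pos h]
    · rw [if_neg fun hh => h hh.2.1, if_neg h]
      exact h1
  refine ⟨⟨?_, ?_⟩, ?_, ?_, ?_⟩
  · intro z hz z' hz' hzz
    have hf := hR.fib z z' hzz
    have hiff : (z ∈ O ∧ F z ∈ ball a ρ ∧ E z (σ (F z))) ↔
        (z' ∈ O ∧ F z' ∈ ball a ρ ∧ E z' (σ (F z'))) := by
      rw [← hf]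
      constructor
      · rintro ⟨_, h2, h3⟩
        exact ⟨hz', h2, hR.trans z' hz' z hz _ (hp.mem _ (hbb h2)).1 (hR.symm z hz z' hz' hzz) h3⟩
      · rintro ⟨_, h2, h3⟩
        exact ⟨hz, h2, hR.trans z hz z' hz' _ (hp.mem _ (hbb h2)).1 hzz h3⟩
    unfold MdE
    by_cases h : z ∈ O ∧ F z ∈ ball a ρ ∧ E z (σ (F z))
    · rw [if_pos h, if_pos (hiff.1 h), hf]
    · rw [if_neg h, if_neg fun hh => h (hiff.2 hh)]
      exact hu.1 z hz z' hz' hzz
  · intro z1 hz1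
    have hinh : (∀ᶠ z in 𝓝 z1, MdE F O E a ρ σ u z = u z) → ∃ ε : ℝ, 0 < ε ∧ ∃ U : ℂ → ℝ,
        SupM U (ball (F z1) ε) ∧ ∀ᶠ z in 𝓝 z1, MdE F O E a ρ σ u z = U (F z) := by
      intro h
      obtain ⟨ε, hε, U, h1, h2⟩ := hu.2 z1 hz1
      refine ⟨ε, hε, U, h1, ?_⟩
      filter_upwards [h, h2] with z h3 h4
      rw [h3, h4]
    by_cases hF : F z1 ∈ ball a ρ'
    · by_cases hE : E z1 (σ (F z1))
      · obtain ⟨ε, hε, hb⟩ := Metric.isOpen_iff.1 isOpen_ball (F z1) hF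
        refine ⟨ε, hε, Md (fun c => u (σ c)) a ρ, ⟨m1.1.mono hb, fun c hc => m1.2 c (hb hc)⟩, ?_⟩
        filter_upwards [ev_E hR hp hz1 hF hE] with z h
        exact (hval z h.1 h.2.1 h.2.2).1
      · refine hinh ?_
        filter_upwards [ev_nE hR hp hz1 hF hE] with z h
        unfold MdE
        rw [if_neg fun hh => h.2.2 hh.2.2]
    · refine hinh ?_
      have h' : F z1 ∉ closedBall a ρ := fun hh => hF (closedBall_subset_ball hp.lt hh)
      filter_upwards [(hR.contAt hz1).eventually (isClosed_closedBall.isOpen_compl.mem_nhds h')]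
        with z h2
      unfold MdE
      rw [if_neg fun hh => h2 (ball_subset_closedBall hh.2.1)]
  · intro z hz
    by_cases h : z ∈ O ∧ F z ∈ ball a ρ ∧ E z (σ (F z))
    · obtain ⟨e1, e2⟩ := hval z hz (hbb h.2.1) h.2.2
      rw [e1, e2]
      exact m2 _ (hbb h.2.1)
    · unfold MdE
      rw [if_neg h]
  · intro u0 hu0 hle z hz
    by_cases h : z ∈ O ∧ F z ∈ ball a ρ ∧ E z (σ (F z))
    · obtain ⟨e1, e2⟩ := hval z hz (hbb h.2.1) h.2.2
      have hU0 : SubM (fun c => u0 (σ c)) (ball a ρ') :=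
        subM_loc fun c hc => loc_sig hp SubM hu0.2 hc
      rw [e1, hu0.1 z hz _ (hp.mem _ (hbb h.2.1)).1 h.2.2]
      exact m3 (fun c => u0 (σ c)) hU0 (fun c hc => hle _ (hp.mem c hc).1) _ (hbb h.2.1)
    · unfold MdE
      rw [if_neg h]
      exact hle z hz
  · intro c hc
    refine (harmonicAt_congr_nhds ?_).1 (m4 c hc)
    filter_upwards [isOpen_ball.mem_nhds hc] with c' hc'
    have hm := hp.mem c' (hbb hc')
    have h1 : E (σ c') (σ (F (σ c'))) := by rw [hm.2]; exact hR.refl _ hm.1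
    have h2 := (hval (σ c') hm.1 (by rw [hm.2]; exact hbb hc') h1).1
    rw [hm.2] at h2
    exact h2.symm

end piece

theorem perre (hP : PMOD) (hD : DECR) (hS : SECT) : PERRE := by
  intro n F O E H u0 hR hH hu0 hle
  have hpc : ∀ z0 : Cn n, ∃ (ε : ℝ) (σ : ℂ → Cn n), z0 ∈ O →
      Pc F O (F z0) (ε / 2) ε σ ∧ σ (F z0) = z0 := by
    intro z0
    by_cases hz : z0 ∈ O
    · obtain ⟨ε, hε, σ, h1, h2, h3⟩ := hS n F O hR.op hR.an z0 hz (hR.sub z0 hz)
      exact ⟨ε, σ, fun _ => ⟨⟨half_pos hε, half_lt_self hε, h3, h2.continuousOn⟩, h1⟩⟩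
    · exact ⟨0, fun _ => 0, fun h => absurd h hz⟩
  choose R S hRS using hpc
  have hcore : ∀ z0 ∈ O, ∀ᶠ z in 𝓝 z0, z ∈ O ∧ F z ∈ ball (F z0) (R z0 / 2) ∧
      E z (S z0 (F z)) := by
    intro z0 hz0
    obtain ⟨hp, hs⟩ := hRS z0 hz0
    have h1 := ev_E hR hp hz0 (mem_ball_self (hp.pos.trans hp.lt))
      (by rw [hs]; exact hR.refl z0 hz0)
    filter_upwards [h1, (hR.contAt hz0).eventually (ball_mem_nhds _ hp.pos)] with z h2 h3
    exact ⟨h2.1, h3, h2.2.2⟩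
  obtain ⟨t, hts, htc, htU⟩ := TopologicalSpace.countable_cover_nhdsWithin
    (f := fun z0 => {z | z ∈ O ∧ F z ∈ ball (F z0) (R z0 / 2) ∧ E z (S z0 (F z))}) (s := O)
    (fun z hz => mem_nhdsWithin_of_mem_nhds (hcore z hz))
  rcases t.eq_empty_or_nonempty with ht | ht
  · refine ⟨H, fun z hz => ?_, fun z hz => ?_⟩
    · exfalso
      have := htU hz
      simp [ht] at this
    · exfalso
      have := htU hz
      simp [ht] at this
  obtain ⟨e, he⟩ := htc.exists_eq_range ht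
  have het : ∀ m, e m ∈ O := fun m => hts (by rw [he]; exact Set.mem_range_self m)
  have hpm : ∀ m, Pc F O (F (e m)) (R (e m) / 2) (R (e m)) (S (e m)) := fun m =>
    (hRS (e m) (het m)).1
  let Hs : ℕ → Cn n → ℝ := fun j => Nat.rec H (fun j u =>
    MdE F O E (F (e (Nat.unpair j).1)) (R (e (Nat.unpair j).1) / 2) (S (e (Nat.unpair j).1)) u) j
  have Hss : ∀ j, Hs (j + 1) = MdE F O E (F (e (Nat.unpair j).1)) (R (e (Nat.unpair j).1) / 2)
    (S (e (Nat.unpair j).1)) (Hs j) := fun j => rfl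
  have hMm : ∀ m, ∀ u : Cn n → ℝ, SupE F O E u → _ := fun m u hu => mde hP hR (hpm m) (u := u) hu
  have hind : ∀ j, SupE F O E (Hs j) ∧ ∀ z ∈ O, u0 z ≤ Hs j z := by
    intro j
    induction j with
    | zero => exact ⟨hH, hle⟩
    | succ j ih =>
      have h1 := hMm (Nat.unpair j).1 (Hs j) ih.1
      rw [Hss]
      exact ⟨h1.1, h1.2.2.1 u0 hu0 ih.2⟩
  have hanti : ∀ z ∈ O, Antitone (fun j => Hs j z) := by
    intro z hz
    refine antitone_nat_of_succ_le fun j => ?_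
    have h1 := hMm (Nat.unpair j).1 (Hs j) (hind j).1
    rw [Hss]
    exact h1.2.1 z hz
  have hbdd : ∀ z ∈ O, BddBelow (Set.range (fun j => Hs j z)) := by
    intro z hz
    exact ⟨u0 z, by rintro _ ⟨j, rfl⟩; exact (hind j).2 z hz⟩
  let v : Cn n → ℝ := fun z => ⨅ j, Hs j z
  have hlim : ∀ z ∈ O, Tendsto (fun j => Hs j z) atTop (𝓝 (v z)) :=
    fun z hz => tendsto_atTop_ciInf (hanti z hz) (hbdd z hz)
  have hvinv : ∀ z ∈ O, ∀ z' ∈ O, E z z' → v z = v z' := by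
    intro z hz z' hz' hzz
    simp only [v]
    congr 1
    funext j
    exact (hind j).1.1 z hz z' hz' hzz
  refine ⟨v, ?_, ?_⟩
  · intro z hz
    refine ⟨le_ciInf fun j => (hind j).2 z hz, ?_⟩
    exact ciInf_le (hbdd z hz) 0
  · intro z0 hz0
    have h1 := htU hz0
    simp only [Set.mem_iUnion] at h1
    obtain ⟨c, hct, hcz⟩ := h1
    rw [he] at hct
    obtain ⟨m, rfl⟩ := hct
    obtain ⟨-, hFz, hEz⟩ := hcz
    have hp := hpm m
    have hbb : ball (F (e m)) (R (e m) / 2) ⊆ ball (F (e m)) (R (e m)) :=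
      ball_subset_ball hp.lt.le
    have hin : ∀ c ∈ ball (F (e m)) (R (e m) / 2), S (e m) c ∈ O := fun c hc =>
      (hp.mem c (hbb hc)).1
    have hV : HarmonicOnNhd (fun c => v (S (e m) c)) (ball (F (e m)) (R (e m) / 2)) := by
      refine hD (F (e m)) (R (e m) / 2) (fun i c => Hs (Nat.pair m i + 1) (S (e m) c))
        (fun c => u0 (S (e m) c)) _ ?_ ?_ ?_ ?_ ?_
      · intro i
        have h2 := (hMm m (Hs (Nat.pair m i)) (hind _).1).2.2.2
        have h3 : Hs (Nat.pair m i + 1) = MdE F O E (F (e m)) (R (e m) / 2) (S (e m))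
            (Hs (Nat.pair m i)) := by
          rw [Hss, Nat.unpair_pair]
        rw [h3]
        exact h2
      · intro i c hc
        have h2 := hin c hc
        have h3 : Nat.pair m i + 1 ≤ Nat.pair m (i + 1) + 1 := by
          have := Nat.pair_lt_pair_right m (show i < i + 1 by omega)
          omega
        exact hanti _ h2 h3
      · have hU0 : SubM (fun c => u0 (S (e m) c)) (ball (F (e m)) (R (e m))) :=
          subM_loc fun c hc => loc_sig hp SubM hu0.2 hc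
        exact hU0.1.mono hbb
      · intro i c hc
        have h2 := hin c hc
        exact (hind (Nat.pair m i + 1)).2 _ h2
      · intro c hc
        have h2 := hin c hc
        have h3 : Tendsto (fun i => Nat.pair m i + 1) atTop atTop := by
          refine StrictMono.tendsto_atTop ?_
          intro i j hij
          have := Nat.pair_lt_pair_right m hij
          change Nat.pair m i + 1 < Nat.pair m j + 1
          omega
        exact (hlim _ h2).comp h3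
    obtain ⟨ε, hε, hεs⟩ := Metric.isOpen_iff.1 isOpen_ball (F z0) hFz
    refine ⟨ε, hε, fun c => v (S (e m) c), hV.mono hεs, ?_⟩
    filter_upwards [ev_E hR hp hz0 (hbb hFz) hEz] with z hz
    exact hvinv z hz.1 _ (hp.mem _ hz.2.1).1 hz.2.2

end Pool.Agent.Lib.MP_6ff8d9_an.P69
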