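import Pool.Agent.Lib.MP_6ff8d9_an_h22.Rows

/-!
# MP_6ff8d9 PERRON rows: extreme implies that `{P = Q}` is connected in the sphere

Definitions and the exact statements of the rows.  Everything is for a holomorphic
`f : Cn n → ℂ` near the closed ball; `f = P/Q` only in the rows `SITR`, `NONE`, `FINAL3`.
Text: the file `RB11_perron.md` of the team store.
-/

open Metric Filter Topology MvPolynomial InnerProductSpace Real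

namespace Pool.Agent.Lib.MP_6ff8d9_an.H11

open Pool.Agent.Lib.MP_6ff8d9_an

noncomputable section

variable {n : ℕ}

/-- the situation: `f` holomorphic near the closed ball, `|f| < 1` inside, `f 0 = 0`, and `CV` a
finite set of values outside of which `f` is a submersion transversal to the sphere -/
structure Sit (n : ℕ) (f : Cn n → ℂ) (CV : Set ℂ) : Prop where
  an : ∃ Ω : Set (Cn n), IsOpen Ω ∧ closedBall 0 1 ⊆ Ω ∧ DifferentiableOn ℂ f Ω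
  lt : ∀ z : Cn n, ‖z‖ < 1 → ‖f z‖ < 1
  zero : f 0 = 0
  fin : CV.Finite
  sub : CV ⊆ ball 0 1
  crit : ∀ z : Cn n, ‖z‖ ≤ 1 → ‖f z‖ < 1 → f z ∉ CV → ‖fderiv ℂ f z z‖ < ‖fderiv ℂ f z‖

/-- same leaf: joined by a path inside the fibre of `f` in the ball -/
def Leaf (f : Cn n → ℂ) (z z' : Cn n) : Prop := JoinedIn {w | ‖w‖ < 1 ∧ f w = f z} z z'

/-- a transport over the closed disc `closedBall a ρ` -/
structure IsTr (f : Cn n → ℂ) (a : ℂ) (ρ : ℝ) (T : Cn n → ℂ → Cn n) : Prop where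
  mem : ∀ z c, ‖z‖ < 1 → f z ∈ closedBall a ρ → c ∈ closedBall a ρ → ‖T z c‖ < 1 ∧ f (T z c) = c
  self : ∀ z, ‖z‖ < 1 → f z ∈ closedBall a ρ → T z (f z) = z
  cz : ∀ c ∈ closedBall a ρ, ContinuousOn (fun z => T z c) {z | ‖z‖ < 1 ∧ f z ∈ closedBall a ρ}
  cc : ∀ z, ‖z‖ < 1 → f z ∈ closedBall a ρ → ContinuousOn (fun c => T z c) (closedBall a ρ)

/-! ## transport -/

/-- a global vector field with `df(Ξ) = 1` near the part of the closed ball over the disc -/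
def VFIELD : Prop := ∀ (n : ℕ) (f : Cn n → ℂ) (CV : Set ℂ) (a : ℂ) (ρ : ℝ), Sit n f CV → 0 < ρ →
  closedBall a ρ ⊆ ball 0 1 \ CV →
  ∃ (Ξ : Cn n → Cn n) (N : Set (Cn n)) (C : ℝ), ContDiff ℝ 1 Ξ ∧ HasCompactSupport Ξ ∧ IsOpen N ∧
    {z : Cn n | ‖z‖ ≤ 1 ∧ f z ∈ closedBall a ρ} ⊆ N ∧
    (∀ y ∈ N, DifferentiableAt ℂ f y ∧ fderiv ℂ f y (Ξ y) = 1) ∧
    (∀ y ∈ N, ‖y‖ < 1 → ‖inner ℂ y (Ξ y)‖ ≤ C * (1 - ‖y‖ ^ 2))

/-- the flow of such a field gives the transport -/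
def FLOW : Prop := ∀ (n : ℕ) (f : Cn n → ℂ) (a : ℂ) (ρ : ℝ) (Ξ : Cn n → Cn n) (N : Set (Cn n))
  (C : ℝ), 0 < ρ → ContinuousOn f (ball 0 1) → ContDiff ℝ 1 Ξ → HasCompactSupport Ξ → IsOpen N →
  {z : Cn n | ‖z‖ ≤ 1 ∧ f z ∈ closedBall a ρ} ⊆ N →
  (∀ y ∈ N, DifferentiableAt ℂ f y ∧ fderiv ℂ f y (Ξ y) = 1) →
  (∀ y ∈ N, ‖y‖ < 1 → ‖inner ℂ y (Ξ y)‖ ≤ C * (1 - ‖y‖ ^ 2)) → ∃ T, IsTr f a ρ T

/-- the leaf relation and the transport (only paths) -/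
def LEAFT : Prop := ∀ (n : ℕ) (f : Cn n → ℂ) (a : ℂ) (ρ : ℝ) (T : Cn n → ℂ → Cn n),
  ContinuousOn f (ball 0 1) → IsTr f a ρ T →
  (∀ z z' c, ‖z‖ < 1 → f z ∈ closedBall a ρ → c ∈ closedBall a ρ → Leaf f z z' →
    Leaf f (T z c) (T z' c)) ∧
  (∀ z c c', ‖z‖ < 1 → f z ∈ closedBall a ρ → c ∈ closedBall a ρ → c' ∈ closedBall a ρ →
    Leaf f (T z c') (T (T z c) c')) ∧
  (∀ z0, ‖z0‖ < 1 → f z0 ∈ ball a ρ → ∀ᶠ z in 𝓝 z0, Leaf f z (T z0 (f z)))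

/-! ## planar potential theory -/

/-- continuous on `s` and small circle averages are at most the value at the centre -/
def SupM (U : ℂ → ℝ) (s : Set ℂ) : Prop :=
  ContinuousOn U s ∧ ∀ c ∈ s, ∀ᶠ r : ℝ in 𝓝[>] 0, circleAverage U c r ≤ U c

/-- continuous on `s` and small circle averages are at least the value at the centre -/
def SubM (U : ℂ → ℝ) (s : Set ℂ) : Prop :=
  ContinuousOn U s ∧ ∀ c ∈ s, ∀ᶠ r : ℝ in 𝓝[>] 0, U c ≤ circleAverage U c r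

/-- the Poisson integral of the values of `U` on the circle `sphere a ρ` -/
def PI (U : ℂ → ℝ) (a : ℂ) (ρ : ℝ) (w : ℂ) : ℝ :=
  circleAverage (fun ζ => poissonKernel a w ζ * U ζ) a ρ

open Classical in
/-- the Poisson modification -/
def Md (U : ℂ → ℝ) (a : ℂ) (ρ : ℝ) (c : ℂ) : ℝ := if c ∈ ball a ρ then PI U a ρ c else U c

/-- minimum principle -/
def MINP : Prop := ∀ (Ω : Set ℂ) (u : ℂ → ℝ), IsOpen Ω → Bornology.IsBounded Ω → SupM u Ω →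
  (∀ ζ ∈ frontier Ω, ∀ ε : ℝ, 0 < ε → ∀ᶠ w in 𝓝[Ω] ζ, -ε ≤ u w) → ∀ w ∈ Ω, 0 ≤ u w

/-- Poisson integral: harmonic inside, continuous boundary values -/
def POIS : Prop := ∀ (a : ℂ) (ρ : ℝ) (U : ℂ → ℝ), 0 < ρ → ContinuousOn U (sphere a ρ) →
  HarmonicOnNhd (PI U a ρ) (ball a ρ) ∧
  ∀ ζ ∈ sphere a ρ, Tendsto (PI U a ρ) (𝓝[ball a ρ] ζ) (𝓝 (U ζ))

/-- Poisson modification in the plane -/
def PMOD : Prop := ∀ (a : ℂ) (ρ ρ' : ℝ) (U : ℂ → ℝ), 0 < ρ → ρ < ρ' → SupM U (ball a ρ') →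
  SupM (Md U a ρ) (ball a ρ') ∧ (∀ c ∈ ball a ρ', Md U a ρ c ≤ U c) ∧
  (∀ U0 : ℂ → ℝ, SubM U0 (ball a ρ') → (∀ c ∈ ball a ρ', U0 c ≤ U c) →
    ∀ c ∈ ball a ρ', U0 c ≤ Md U a ρ c) ∧
  HarmonicOnNhd (Md U a ρ) (ball a ρ)

/-- decreasing limits of harmonic functions -/
def DECR : Prop := ∀ (a : ℂ) (ρ : ℝ) (h : ℕ → ℂ → ℝ) (l v : ℂ → ℝ),
  (∀ i, HarmonicOnNhd (h i) (ball a ρ)) → (∀ i, ∀ c ∈ ball a ρ, h (i + 1) c ≤ h i c) →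
  ContinuousOn l (ball a ρ) → (∀ i, ∀ c ∈ ball a ρ, l c ≤ h i c) →
  (∀ c ∈ ball a ρ, Tendsto (fun i => h i c) atTop (𝓝 (v c))) → HarmonicOnNhd v (ball a ρ)

/-! ## the balayage on the leaves -/

/-- constant on leaves -/
def LC (f : Cn n → ℂ) (CV : Set ℂ) (u : Cn n → ℝ) : Prop :=
  ∀ z z', ‖z‖ < 1 → f z ∉ CV → Leaf f z z' → u z = u z'

/-- leafwise constant and locally a super-mean-valued function of `f`, off the critical fibres -/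
def SupF (f : Cn n → ℂ) (CV : Set ℂ) (u : Cn n → ℝ) : Prop :=
  LC f CV u ∧ ∀ z0, ‖z0‖ < 1 → f z0 ∉ CV → ∃ ε : ℝ, 0 < ε ∧ ∃ U : ℂ → ℝ,
    SupM U (ball (f z0) ε) ∧ ∀ᶠ z in 𝓝 z0, u z = U (f z)

/-- leafwise constant and locally a sub-mean-valued function of `f`, off the critical fibres -/
def SubF (f : Cn n → ℂ) (CV : Set ℂ) (u : Cn n → ℝ) : Prop :=
  LC f CV u ∧ ∀ z0, ‖z0‖ < 1 → f z0 ∉ CV → ∃ ε : ℝ, 0 < ε ∧ ∃ U : ℂ → ℝ,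
    SubM U (ball (f z0) ε) ∧ ∀ᶠ z in 𝓝 z0, u z = U (f z)

open Classical in
/-- the leafwise Poisson modification over `ball a ρ` (with a transport `T` over a larger disc) -/
def MdF (f : Cn n → ℂ) (a : ℂ) (ρ : ℝ) (T : Cn n → ℂ → Cn n) (u : Cn n → ℝ) (z : Cn n) : ℝ :=
  if f z ∈ ball a ρ then PI (fun ζ => u (T z ζ)) a ρ (f z) else u z

/-- leafwise Poisson modification -/
def MODF : Prop := ∀ (n : ℕ) (f : Cn n → ℂ) (CV : Set ℂ) (a : ℂ) (ρ ρ' : ℝ)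
  (T : Cn n → ℂ → Cn n), Sit n f CV → 0 < ρ → ρ < ρ' → closedBall a ρ' ⊆ ball 0 1 \ CV →
  IsTr f a ρ' T → ∀ u : Cn n → ℝ, SupF f CV u →
  SupF f CV (MdF f a ρ T u) ∧
  (∀ z, ‖z‖ < 1 → f z ∉ CV → MdF f a ρ T u z ≤ u z) ∧
  (∀ u0 : Cn n → ℝ, SubF f CV u0 → (∀ z, ‖z‖ < 1 → f z ∉ CV → u0 z ≤ u z) →
    ∀ z, ‖z‖ < 1 → f z ∉ CV → u0 z ≤ MdF f a ρ T u z) ∧
  (∀ z0, ‖z0‖ < 1 → f z0 ∈ ball a ρ →
    HarmonicOnNhd (fun c => MdF f a ρ T u (T z0 c)) (ball a ρ))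

/-- the balayage: a leafwise harmonic function between `u0` and `H` -/
def PERR : Prop := ∀ (n : ℕ) (f : Cn n → ℂ) (CV : Set ℂ) (H u0 : Cn n → ℝ), Sit n f CV →
  SupF f CV H → SubF f CV u0 → (∀ z, ‖z‖ < 1 → f z ∉ CV → u0 z ≤ H z) →
  ∃ v : Cn n → ℝ, (∀ z, ‖z‖ < 1 → f z ∉ CV → u0 z ≤ v z ∧ v z ≤ H z) ∧
    ∀ z0, ‖z0‖ < 1 → f z0 ∉ CV → ∃ ε : ℝ, 0 < ε ∧ ∃ U : ℂ → ℝ,
      HarmonicOnNhd U (ball (f z0) ε) ∧ ∀ᶠ z in 𝓝 z0, v z = U (f z)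

/-! ## the barriers -/

/-- `g = (1+f)/(1-f)` -/
def gf (f : Cn n → ℂ) (z : Cn n) : ℂ := (1 + f z) / (1 - f z)

/-- the two barriers coming from a splitting of `{f = 1}` -/
def SPLIT : Prop := ∀ (n : ℕ) (f : Cn n → ℂ) (CV : Set ℂ), Sit n f CV →
  ¬ IsPreconnected {z : Cn n | ‖z‖ = 1 ∧ f z = 1} →
  ∃ (H u0 : Cn n → ℝ) (C : ℝ), SupF f CV H ∧ SubF f CV u0 ∧
    (∀ z, ‖z‖ < 1 → 0 ≤ u0 z ∧ u0 z ≤ H z ∧ H z ≤ (gf f z).re) ∧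
    (∀ M : ℝ, ∃ z, ‖z‖ < 1 ∧ f z ∉ CV ∧ M < (gf f z).re ∧ (gf f z).re - C ≤ u0 z) ∧
    (∀ M : ℝ, ∃ z, ‖z‖ < 1 ∧ f z ∉ CV ∧ M < (gf f z).re ∧ H z ≤ C)

/-! ## pluriharmonic functions on the ball -/

/-- locally the real part of a holomorphic function -/
def LRe (v : Cn n → ℝ) (z0 : Cn n) : Prop :=
  ∃ k : Cn n → ℂ, ∀ᶠ z in 𝓝 z0, DifferentiableAt ℂ k z ∧ v z = (k z).re

/-- a function whose real derivative is the real part of a holomorphic form is the real part of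
a holomorphic function, on balls -/
def PHA : Prop := ∀ (n : ℕ) (c : Cn n) (r : ℝ) (v : Cn n → ℝ) (α : Cn n → (Cn n →L[ℂ] ℂ)),
  DifferentiableOn ℂ α (ball c r) →
  (∀ z ∈ ball c r, HasFDerivAt v (Complex.reCLM.comp ((α z).restrictScalars ℝ)) z) →
  ∃ k : Cn n → ℂ, DifferentiableOn ℂ k (ball c r) ∧ ∀ z ∈ ball c r, v z = (k z).re

/-- local to global on the unit ball -/
def PHRE : Prop := ∀ (n : ℕ) (v : Cn n → ℝ), (∀ z ∈ ball (0 : Cn n) 1, LRe v z) →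
  ∃ k : Cn n → ℂ, DifferentiableOn ℂ k (ball 0 1) ∧ ∀ z ∈ ball (0 : Cn n) 1, v z = (k z).re

/-- extension across the zero set of a holomorphic function -/
def EXTND : Prop := ∀ (n : ℕ) (Φ : Cn n → ℂ) (v M : Cn n → ℝ),
  DifferentiableOn ℂ Φ (ball 0 1) → (∃ z ∈ ball (0 : Cn n) 1, Φ z ≠ 0) →
  ContinuousOn M (ball 0 1) → (∀ z ∈ ball (0 : Cn n) 1, Φ z ≠ 0 → |v z| ≤ M z) →
  (∀ z ∈ ball (0 : Cn n) 1, Φ z ≠ 0 → LRe v z) →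
  ∃ k : Cn n → ℂ, DifferentiableOn ℂ k (ball 0 1) ∧
    ∀ z ∈ ball (0 : Cn n) 1, Φ z ≠ 0 → v z = (k z).re

/-! ## conclusion -/

/-- a dominated function which is not a multiple destroys extremality -/
def CONCL : Prop := ∀ (n : ℕ) (g k : Cn n → ℂ), g ∈ NB n → DifferentiableOn ℂ k (ball 0 1) →
  (∀ z ∈ ball (0 : Cn n) 1, 0 ≤ (k z).re ∧ (k z).re ≤ (g z).re) →
  (∀ t : ℝ, ∃ z ∈ ball (0 : Cn n) 1, (k z).re ≠ t * (g z).re) → ¬ IsExtremePoint n g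

/-- the abstract theorem -/
def PERRON : Prop := ∀ (n : ℕ) (f : Cn n → ℂ) (CV : Set ℂ), Sit n f CV →
  ¬ IsPreconnected {z : Cn n | ‖z‖ = 1 ∧ f z = 1} → ¬ IsExtremePoint n (gf f)

/-! ## the rational functions -/

/-- finiteness of the critical values -/
def SARD : Prop := ∀ (n : ℕ) (P Q : MvPolynomial (Fin n) ℂ),
  Set.Finite {c : ℂ | ∃ z : Fin n → ℂ, eval z Q ≠ 0 ∧ (∀ j, eval z (H22.Wr P Q j) = 0) ∧
    eval z P / eval z Q = c}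

/-- `f = P/Q` on `Cn n` -/
def fF (P Q : MvPolynomial (Fin n) ℂ) (z : Cn n) : ℂ := H22.fr P Q (fun i => z i)

/-- the situation for `f = P/Q` -/
def SITR : Prop := ∀ (n : ℕ) (P Q : MvPolynomial (Fin n) ℂ), H22.Adm P Q → H22.Dual P Q →
  ∃ CV : Set ℂ, Sit n (fF P Q) CV

/-- `{P = Q}` meets the sphere -/
def NONE : Prop := ∀ (n : ℕ) (P Q : MvPolynomial (Fin n) ℂ), H22.Adm P Q → H22.Dual P Q →
  ∃ z : Cn n, ‖z‖ = 1 ∧ eval (fun i => z i) P = eval (fun i => z i) Q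

/-- extreme implies connected -/
def FINAL3 : Prop := ∀ (n : ℕ) (P Q : MvPolynomial (Fin n) ℂ), 1 ≤ n →
  IsExtremePoint n (H22.gPQ P Q) → (∀ z : Cn n, ‖z‖ ≤ 1 → eval (fun i => z i) Q ≠ 0) →
  IsConnected {z : Cn n | ‖z‖ = 1 ∧ eval (fun i => z i) P = eval (fun i => z i) Q}

end

end Pool.Agent.Lib.MP_6ff8d9_an.H11
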