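import Pool.Agent.Lib.MP_6ff8d9_an_h69.RowsU
import Pool.Agent.Lib.MP_6ff8d9_an_h69.Krel
import Pool.Agent.Lib.MP_6ff8d9_an_h21r.Prime
import Pool.Agent.Lib.MP_6ff8d9_an_h11.IrrPrime
import Pool.Agent.Lib.MP_6ff8d9_an_h69.UTools

/-!
# MP_6ff8d9 THEOREM U: the assembly UNIF and the corollary IRRPRIME
-/

open Metric Filter Topology Set
open scoped ComplexConjugate

namespace Pool.Agent.Lib.MP_6ff8d9_an.P69

open Pool.Agent.Lib.MP_6ff8d9_an Pool.Agent.Lib.MP_6ff8d9_an.H11

variable {n : ℕ}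

/-- transitivity, the middle function being nonconstant -/
theorem dep_trans11 {F W φ : Cn n → ℂ} (hF : DifferentiableOn ℂ F (ball 0 1))
    (hW : DifferentiableOn ℂ W (ball 0 1)) (hφ : DifferentiableOn ℂ φ (ball 0 1))
    (h1 : Dep F W) (h2 : Dep W φ) {e z1 : Cn n} (hz1 : z1 ∈ Oe W e) : Dep F φ := by
  intro z hz v v'
  have hgW : DifferentiableOn ℂ (fun z => fderiv ℂ W z e) (ball 0 1) :=
    (differentiableOn_fderiv hW).clm_apply (differentiableOn_const e)
  have hd := dens n 0 1 (fun z => fderiv ℂ W z e) hgW ⟨z1, hz1.1, hz1.2⟩ hz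
  have hcl : ContinuousOn (fun z => fderiv ℂ F z v * fderiv ℂ φ z v' -
      fderiv ℂ F z v' * fderiv ℂ φ z v) (ball 0 1) := by
    have c1 := continuousOn_fderiv hF
    have c2 := continuousOn_fderiv hφ
    exact ((c1.clm_apply continuousOn_const).mul (c2.clm_apply continuousOn_const)).sub
      ((c1.clm_apply continuousOn_const).mul (c2.clm_apply continuousOn_const))
  have hc : ContinuousAt (fun z => fderiv ℂ F z v * fderiv ℂ φ z v' -
      fderiv ℂ F z v' * fderiv ℂ φ z v) z := hcl.continuousAt (isOpen_ball.mem_nhds hz)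
  have hzero : ∀ y ∈ {y | y ∈ ball (0 : Cn n) 1 ∧ fderiv ℂ W y e ≠ 0},
      fderiv ℂ F y v * fderiv ℂ φ y v' - fderiv ℂ F y v' * fderiv ℂ φ y v = 0 := by
    rintro y ⟨hy, hne⟩
    have a1 := h1 y hy v e
    have a2 := h1 y hy v' e
    have b1 := h2 y hy v e
    have b2 := h2 y hy v' e
    have hm : fderiv ℂ W y e ^ 2 * (fderiv ℂ F y v * fderiv ℂ φ y v' -
        fderiv ℂ F y v' * fderiv ℂ φ y v) = 0 := by
      linear_combination (fderiv ℂ W y e * fderiv ℂ φ y v') * a1 -
        (fderiv ℂ W y e * fderiv ℂ φ y v) * a2 -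
        (fderiv ℂ F y e * fderiv ℂ W y v) * b2 + (fderiv ℂ F y e * fderiv ℂ W y v') * b1
    exact (mul_eq_zero.1 hm).resolve_left (pow_ne_zero 2 hne)
  by_contra hcon
  have hne : fderiv ℂ F z v * fderiv ℂ φ z v' - fderiv ℂ F z v' * fderiv ℂ φ z v ≠ 0 :=
    sub_ne_zero.2 hcon
  obtain ⟨y, hy1, hy2⟩ := mem_closure_iff_nhds.1 hd _ (hc.eventually_ne hne)
  exact hy1 (hzero y hy2)

/-- if `W = ψ(V)` and `dk ∧ dV = 0` then `dk ∧ dW = 0` -/
theorem dep_comp11 {V k W : Cn n → ℂ} {ψ : ℂ → ℂ} (hV : DifferentiableOn ℂ V (ball 0 1))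
    (hψ : ∀ z ∈ ball (0 : Cn n) 1, DifferentiableAt ℂ ψ (V z))
    (hW : ∀ z ∈ ball (0 : Cn n) 1, W z = ψ (V z)) (h : Dep V k) : Dep W k := by
  intro z hz v v'
  have h1 : HasFDerivAt (fun z => ψ (V z)) ((fderiv ℂ ψ (V z)).comp (fderiv ℂ V z)) z :=
    (hψ z hz).hasFDerivAt.comp z (hV.differentiableAt (isOpen_ball.mem_nhds hz)).hasFDerivAt
  have h2 : W =ᶠ[𝓝 z] fun z => ψ (V z) := by
    filter_upwards [isOpen_ball.mem_nhds hz] with y hy using hW y hy
  have h3 : fderiv ℂ W z = (fderiv ℂ ψ (V z)).comp (fderiv ℂ V z) := by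
    rw [h2.fderiv_eq, h1.fderiv]
  have h5 : ∀ x : ℂ, fderiv ℂ ψ (V z) x = x * fderiv ℂ ψ (V z) 1 := by
    intro x
    conv_lhs => rw [← mul_one x, ← smul_eq_mul, map_smul, smul_eq_mul]
  rw [h3, ContinuousLinearMap.comp_apply, ContinuousLinearMap.comp_apply,
    h5 (fderiv ℂ V z v), h5 (fderiv ℂ V z v')]
  linear_combination (fderiv ℂ ψ (V z) 1) * h z hz v v'

/-- Moebius transforms -/
noncomputable def moeb11 (a t : ℂ) : ℂ := (t - a) / (1 - conj a * t)

theorem moeb11_lt {a t : ℂ} (ha : ‖a‖ < 1) (ht : ‖t‖ < 1) : ‖moeb11 a t‖ < 1 := by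
  unfold moeb11
  rw [norm_div, div_lt_one (norm_pos_iff.2 (mobius_ne ha ht.le))]
  have h1 : ‖t - a‖ ^ 2 < ‖1 - conj a * t‖ ^ 2 := by
    have e1 : ‖1 - conj a * t‖ ^ 2 - ‖t - a‖ ^ 2 = (1 - ‖a‖ ^ 2) * (1 - ‖t‖ ^ 2) := by
      simp only [← Complex.normSq_eq_norm_sq, Complex.normSq_apply, Complex.sub_re, Complex.sub_im,
        Complex.mul_re, Complex.mul_im, Complex.conj_re, Complex.conj_im, Complex.one_re,
        Complex.one_im]
      ring
    have h2 : 0 < (1 - ‖a‖ ^ 2) * (1 - ‖t‖ ^ 2) := by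
      have h3 : ‖a‖ ^ 2 < 1 := pow_lt_one₀ (norm_nonneg _) ha two_ne_zero
      have h4 : ‖t‖ ^ 2 < 1 := pow_lt_one₀ (norm_nonneg _) ht two_ne_zero
      exact mul_pos (by linarith) (by linarith)
    linarith
  exact lt_of_pow_lt_pow_left₀ 2 (norm_nonneg _) h1

theorem moeb11_diffAt {a t : ℂ} (ha : ‖a‖ < 1) (ht : ‖t‖ < 1) : DifferentiableAt ℂ (moeb11 a) t :=
  (differentiableAt_id.sub_const a).div
    ((differentiableAt_const _).sub (differentiableAt_id.const_mul _)) (mobius_ne ha ht.le)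

theorem moeb11_inv {a t : ℂ} (ha : ‖a‖ < 1) (ht : ‖t‖ < 1) : moeb11 (-a) (moeb11 a t) = t := by
  have h1 := mobius_ne ha ht.le
  have h2 : (1 : ℂ) - conj a * a ≠ 0 := mobius_ne ha ha.le
  have h3 : 1 - conj (-a) * moeb11 a t ≠ 0 :=
    mobius_ne (by rwa [norm_neg]) (moeb11_lt ha ht).le
  have h4 : (1 - conj a * t) * (1 - conj (-a) * moeb11 a t) = 1 - conj a * a := by
    unfold moeb11
    rw [map_neg]
    field_simp
    ring
  have h5 : (1 - conj a * t) * (moeb11 a t - -a) = t * (1 - conj a * a) := by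
    unfold moeb11
    field_simp
    ring
  have h6 : moeb11 (-a) (moeb11 a t) = (moeb11 a t - -a) / (1 - conj (-a) * moeb11 a t) := rfl
  rw [h6, div_eq_iff h3]
  apply mul_left_cancel₀ h1
  rw [h5]
  linear_combination -t * h4

/-- precomposition of primeness with a Moebius transform -/
theorem prime_moeb11 {W : Cn n → ℂ} (hW : Hol n W) (hP : PrimeF n W) {a : ℂ} (ha : ‖a‖ < 1) :
    PrimeF n (fun z => moeb11 a (W z)) := by
  intro k hk hD
  have ha' : ‖-a‖ < 1 := by rwa [norm_neg]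
  have hV : DifferentiableOn ℂ (fun z => moeb11 a (W z)) (ball 0 1) := fun z hz =>
    ((moeb11_diffAt ha (hW.lt z hz)).comp z
      (hW.an.differentiableAt (isOpen_ball.mem_nhds hz))).differentiableWithinAt
  have h1 : Dep W k := dep_comp11 (ψ := moeb11 (-a)) hV
    (fun z hz => moeb11_diffAt ha' (moeb11_lt ha (hW.lt z hz)))
    (fun z hz => (moeb11_inv ha (hW.lt z hz)).symm) hD
  obtain ⟨K, hK, hKe⟩ := hP k hk h1
  refine ⟨fun t => K (moeb11 (-a) t), ?_, ?_⟩
  · intro t ht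
    have ht' : ‖t‖ < 1 := by simpa using ht
    have h2 : moeb11 (-a) t ∈ ball (0 : ℂ) 1 := by simpa using moeb11_lt ha' ht'
    exact ((hK.differentiableAt (isOpen_ball.mem_nhds h2)).comp t
      (moeb11_diffAt ha' ht')).differentiableWithinAt
  · intro z hz
    show k z = K (moeb11 (-a) (moeb11 a (W z)))
    rw [moeb11_inv ha (hW.lt z hz)]
    exact hKe z hz

theorem exists_Oe11 {F : Cn n → ℂ} (hF : Hol n F) (hF0 : F 0 = 0)
    (hne : ∃ z ∈ ball (0 : Cn n) 1, F z ≠ 0) : ∃ e, (Oe F e).Nonempty := by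
  by_contra hcon
  push Not at hcon
  have hz : EqOn (fderiv ℂ F) 0 (ball (0 : Cn n) 1) := by
    intro z hz
    refine ContinuousLinearMap.ext fun e => ?_
    by_contra h
    have h1 : z ∈ Oe F e := ⟨hz, h⟩
    rw [hcon e] at h1
    exact h1
  obtain ⟨z, hzb, hzF⟩ := hne
  have h1 : F z = F 0 := isOpen_ball.is_const_of_fderiv_eq_zero
    (convex_ball (0 : Cn n) 1).isPreconnected hF.an hz hzb (mem_ball_self one_pos)
  exact hzF (h1.trans hF0)

theorem unif (hM : MAXW) (hO : WONTO) (hP : WPRIME) : UNIF := by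
  intro n F hF hF0 hne
  have h0B : (0 : Cn n) ∈ ball (0 : Cn n) 1 := mem_ball_self one_pos
  obtain ⟨e, z1, hz1⟩ := exists_Oe11 hF hF0 hne
  obtain ⟨W, hW, hWf, hWe, hmax⟩ := hM n F e hF z1 hz1
  have hz1W : z1 ∈ Oe W e := ⟨hz1.1, hWe⟩
  have hmaxW : ∀ φ, Fam n W z1 φ → ∀ z ∈ ball (0 : Cn n) 1, ‖φ z‖ ≤ ‖W z‖ := by
    intro φ hφ
    exact hmax φ ⟨hφ.an, dep_trans11 hF.an hW.an hφ.an hWf.dep hφ.dep hz1W, hφ.le, hφ.zero⟩
  have honto := hO n W e z1 hW hz1W hWf.zero hmaxW
  have hprime := hP n W e z1 hW hz1W hWf.zero hmaxW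
  obtain ⟨K, hK, hKe⟩ := hprime F hF.an hWf.dep.symm
  set a := W 0 with ha
  have ha1 : ‖a‖ < 1 := hW.lt 0 h0B
  have ha' : ‖-a‖ < 1 := by rwa [norm_neg]
  refine ⟨fun z => moeb11 a (W z), fun t => K (moeb11 (-a) t), ⟨?_, ?_⟩, ?_, prime_moeb11 hW hprime ha1,
    ?_, ?_, ?_, ?_, ?_⟩
  · intro z hz
    exact ((moeb11_diffAt ha1 (hW.lt z hz)).comp z
      (hW.an.differentiableAt (isOpen_ball.mem_nhds hz))).differentiableWithinAt
  · intro z hz
    exact moeb11_lt ha1 (hW.lt z hz)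
  · simp [moeb11, ← ha]
  · intro w0 hw0
    have hw0' : ‖w0‖ < 1 := by simpa using hw0
    obtain ⟨z, hz, hzw⟩ := honto (moeb11 (-a) w0) (by simpa using moeb11_lt ha' hw0')
    refine ⟨z, hz, ?_⟩
    show moeb11 a (W z) = w0
    rw [hzw]
    have h2 := moeb11_inv ha' hw0'
    rwa [neg_neg] at h2
  · intro t ht
    have ht' : ‖t‖ < 1 := by simpa using ht
    have h2 : moeb11 (-a) t ∈ ball (0 : ℂ) 1 := by simpa using moeb11_lt ha' ht'
    exact ((hK.differentiableAt (isOpen_ball.mem_nhds h2)).comp t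
      (moeb11_diffAt ha' ht')).differentiableWithinAt
  · show K (moeb11 (-a) 0) = 0
    have h2 : moeb11 (-a) 0 = a := by simp [moeb11]
    rw [h2, ha, ← hKe 0 h0B, hF0]
  · intro w hw
    have hw' : ‖w‖ < 1 := by simpa using hw
    obtain ⟨z, hz, hzw⟩ := honto (moeb11 (-a) w) (by simpa using moeb11_lt ha' hw')
    show ‖K (moeb11 (-a) w)‖ < 1
    rw [← hzw, ← hKe z hz]
    exact hF.lt z hz
  · intro z hz
    show F z = K (moeb11 (-a) (moeb11 a (W z)))
    rw [moeb11_inv ha1 (hW.lt z hz)]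
    exact hKe z hz

/-- irreducible functions are prime -/
theorem irrprime' (hU : UNIF) : IRRPRIME := by
  intro n F hF hF0 hne hI
  have h0B : (0 : Cn n) ∈ ball (0 : Cn n) 1 := mem_ball_self one_pos
  obtain ⟨V, h, hV, hV0, hVp, hVo, hh, hh0, hhb, hFh⟩ := hU n F hF hF0 hne
  -- the quotient `h(t)/t`
  set h1 : ℂ → ℂ := dslope h 0 with hh1
  have hmaps : MapsTo h (ball 0 1) (closedBall (h 0) 1) := by
    intro t ht
    rw [hh0]
    simpa using (hhb t ht).le
  have h1d : DifferentiableOn ℂ h1 (ball 0 1) :=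
    (Complex.differentiableOn_dslope (isOpen_ball.mem_nhds (mem_ball_self one_pos))).2 hh
  have h1b : ∀ t ∈ ball (0 : ℂ) 1, ‖h1 t‖ ≤ 1 := by
    intro t ht
    have := Complex.norm_dslope_le_div_of_mapsTo_ball hh hmaps ht
    simpa using this
  have hprod : ∀ t, h t = t * h1 t := by
    intro t
    have := sub_smul_dslope h 0 t
    rw [hh0] at this
    simp only [sub_zero, smul_eq_mul] at this
    exact this.symm
  have hVb : ∀ z ∈ ball (0 : Cn n) 1, V z ∈ ball (0 : ℂ) 1 := fun z hz => by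
    simpa using hV.lt z hz
  have hVnc : ¬ ∀ z ∈ ball (0 : Cn n) 1, V z = V 0 := by
    intro hc
    obtain ⟨z, hz, hzw⟩ := hVo (1 / 2) (by simp; norm_num)
    rw [hc z hz, hV0] at hzw
    norm_num at hzw
  have hconst := (hI V (fun z => h1 (V z)) hV.an (by
      intro z hz
      exact ((h1d.differentiableAt (isOpen_ball.mem_nhds (hVb z hz))).comp z
        (hV.an.differentiableAt (isOpen_ball.mem_nhds hz))).differentiableWithinAt) (by
      intro z hz
      refine ⟨(hV.lt z hz).le, h1b _ (hVb z hz), ?_⟩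
      rw [hFh z hz, hprod])).resolve_left hVnc
  set c := h1 (V 0) with hc
  have hFc : ∀ z ∈ ball (0 : Cn n) 1, F z = c * V z := by
    intro z hz
    rw [hFh z hz, hprod, hconst z hz, mul_comm]
  have hc1 : ‖c‖ ≤ 1 := h1b _ (hVb 0 h0B)
  have hcn : c ≠ 0 := by
    intro h0
    obtain ⟨z, hz, hzF⟩ := hne
    apply hzF
    rw [hFc z hz, h0, zero_mul]
  rcases lt_or_eq_of_le hc1 with hlt | heq
  · -- `|F| ≤ |c| < 1`: reducible
    exfalso
    set c0 : ℝ := ‖c‖ with hc0
    have hc00 : 0 < c0 := norm_pos_iff.2 hcn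
    set A : ℝ := (1 + c0) / (1 - c0) with hA
    have hA1 : 1 < A := by
      rw [hA, lt_div_iff₀ (by linarith)]
      linarith
    have hFb : ∀ z ∈ ball (0 : Cn n) 1, ‖F z‖ ≤ c0 := by
      intro z hz
      rw [hFc z hz, norm_mul]
      nlinarith [hV.lt z hz, norm_nonneg (V z)]
    have hAF : ∀ z ∈ ball (0 : Cn n) 1, (A : ℂ) + F z ≠ 0 := by
      intro z hz h0
      have h2 : F z = -(A : ℂ) := by linear_combination h0
      have h3 := hFb z hz
      rw [h2, norm_neg, Complex.norm_real, Real.norm_eq_abs, abs_of_pos (by linarith)] at h3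
      linarith
    have hAFn : ∀ z ∈ ball (0 : Cn n) 1, A - c0 ≤ ‖(A : ℂ) + F z‖ := by
      intro z hz
      have h2 : ‖(A : ℂ)‖ = A := by
        rw [Complex.norm_real, Real.norm_eq_abs, abs_of_pos (by linarith)]
      have h3 := norm_sub_le ((A : ℂ) + F z) (F z)
      rw [add_sub_cancel_right, h2] at h3
      linarith [hFb z hz]
    have hA1c : ((A : ℂ) + 1) ≠ 0 := by
      have : ((A + 1 : ℝ) : ℂ) ≠ 0 := by
        have h2 : A + 1 ≠ 0 := by linarith
        exact_mod_cast h2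
      simpa using this
    have hA1n : ‖(A : ℂ) + 1‖ = A + 1 := by
      have : (A : ℂ) + 1 = ((A + 1 : ℝ) : ℂ) := by push_cast; ring
      rw [this, Complex.norm_real, Real.norm_eq_abs, abs_of_pos (by linarith)]
    have hkey : c0 * (A + 1) ≤ A - c0 := by
      have h2 : (1 - c0) * A = 1 + c0 := by
        rw [hA]
        field_simp [show (1 - c0) ≠ 0 by linarith]
      nlinarith [sq_nonneg (1 - c0), sq_nonneg c0]
    rcases hI (fun z => F z * ((A + 1) / (A + F z))) (fun z => (A + F z) / (A + 1))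
      (by
        intro z hz
        have hFz := hF.an.differentiableAt (isOpen_ball.mem_nhds hz)
        have h2 : DifferentiableAt ℂ (fun t : ℂ => t * (((A : ℂ) + 1) / ((A : ℂ) + t))) (F z) :=
          differentiableAt_id.mul ((differentiableAt_const _).div
            ((differentiableAt_const _).add differentiableAt_id) (hAF z hz))
        exact (h2.comp z hFz).differentiableWithinAt)
      (by
        intro z hz
        have hFz := hF.an.differentiableAt (isOpen_ball.mem_nhds hz)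
        have h2 : DifferentiableAt ℂ (fun t : ℂ => ((A : ℂ) + t) / ((A : ℂ) + 1)) (F z) :=
          ((differentiableAt_const _).add differentiableAt_id).div_const _
        exact (h2.comp z hFz).differentiableWithinAt)
      (by
        intro z hz
        have hpos : 0 < ‖(A : ℂ) + F z‖ := norm_pos_iff.2 (hAF z hz)
        refine ⟨?_, ?_, ?_⟩
        · rw [norm_mul, norm_div, hA1n, ← mul_div_assoc, div_le_one hpos]
          calc ‖F z‖ * (A + 1) ≤ c0 * (A + 1) :=
                mul_le_mul_of_nonneg_right (hFb z hz) (by linarith)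
            _ ≤ A - c0 := hkey
            _ ≤ _ := hAFn z hz
        · rw [norm_div, hA1n, div_le_one (by linarith)]
          calc ‖(A : ℂ) + F z‖ ≤ ‖(A : ℂ)‖ + ‖F z‖ := norm_add_le _ _
            _ ≤ A + 1 := by
              rw [Complex.norm_real, Real.norm_eq_abs, abs_of_pos (by linarith)]
              linarith [hFb z hz]
        · have := hAF z hz
          field_simp) with hk | hk
    · obtain ⟨z, hz, hzF⟩ := hne
      have h2 := hk z hz
      rw [hF0, zero_mul] at h2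
      rcases mul_eq_zero.1 h2 with h3 | h3
      · exact hzF h3
      · rcases div_eq_zero_iff.1 h3 with h4 | h4
        · exact hA1c h4
        · exact hAF z hz h4
    · obtain ⟨z, hz, hzF⟩ := hne
      have h2 := hk z hz
      rw [hF0, add_zero] at h2
      rw [div_left_inj' hA1c] at h2
      apply hzF
      linear_combination h2
  · intro k hk hD
    have h2 : Dep V k := dep_comp11 (ψ := fun t => c⁻¹ * t) hF.an
      (fun z _ => differentiableAt_id.const_mul _)
      (fun z hz => by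
        show V z = c⁻¹ * F z
        rw [hFc z hz]
        field_simp) hD
    obtain ⟨K, hK, hKe⟩ := hVp k hk h2
    refine ⟨fun t => K (c⁻¹ * t), ?_, ?_⟩
    · intro t ht
      have ht' : ‖t‖ < 1 := by simpa using ht
      have h3 : c⁻¹ * t ∈ ball (0 : ℂ) 1 := by
        rw [mem_ball_zero_iff, norm_mul, norm_inv, heq, inv_one, one_mul]
        exact ht'
      have h4 : DifferentiableAt ℂ (fun t : ℂ => c⁻¹ * t) t := differentiableAt_id.const_mul _
      exact ((hK.differentiableAt (isOpen_ball.mem_nhds h3)).comp t h4).differentiableWithinAt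
    · intro z hz
      show k z = K (c⁻¹ * F z)
      rw [hKe z hz, hFc z hz]
      congr 1
      field_simp

end Pool.Agent.Lib.MP_6ff8d9_an.P69
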